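import Pool.Agent.MP_1a6d78_lc.GM.Spec

/-! PROJECT GM, row RECC: a recursion with few calls is a function of the plain calculus. -/

namespace Pool.Agent.MP_1a6d78_lc.GM

open Function ED SC

namespace RecC

/-- Shift of the actions. -/
def sa (k : ℕ) : A1 → A1
  | .push i => .push (i + k)
  | .pop i => .pop (i + k)
  | .inc i => .inc (i + k)
  | .dec i => .dec (i + k)
  | .inp d => .inp d

/-- Shift of the tests. -/
def sc (k : ℕ) : C1 → C1
  | .ne i => .ne (i + k)
  | .nz i => .nz (i + k)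
  | .rd f => .rd f

/-- The first `k` stacks of `σ` below the stacks of `s`. -/
def glue (k : ℕ) (σ : ℕ → List ℕ) (s : S1) : S1 :=
  (fun i => if i < k then σ i else s.1 (i - k), s.2)

theorem glue_at (k : ℕ) (σ : ℕ → List ℕ) (s : S1) (i : ℕ) : (glue k σ s).1 (i + k) = s.1 i := by
  simp [glue]

theorem glue_upd (k : ℕ) (σ : ℕ → List ℕ) (s : S1) (i : ℕ) (l : List ℕ) :
    (update (glue k σ s).1 (i + k) l, (glue k σ s).2) = glue k σ (update s.1 i l, s.2) := by
  refine Prod.ext (funext fun j => ?_) rfl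
  simp only [glue, update_apply]
  split_ifs <;> first | rfl | omega

theorem shift {x : List Bool} {K k n : ℕ} {σ : ℕ → List ℕ} (hσ : Len K (σ, 0)) {p : Prog A1 C1}
    {s s' : S1} (hs : Len K s) (h : Ex x K p s s' n) :
    Ex x K (p.bind (fun a => .act (sa k a)) (sc k)) (glue k σ s) (glue k σ s') n := by
  obtain ⟨t, e, rfl⟩ := sim (act' := act1 x) (tst' := tst1 x) (G' := Len K)
    (fun s t => t = glue k σ s) (fun a => .act (sa k a)) (sc k) 1 le_rfl
    (by
      rintro c s _ rfl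
      cases c <;> simp only [sc, tst1, glue_at]
      rfl)
    (by
      rintro a s _ rfl _ h2
      refine ⟨_, .act' _ ?_ fun i => ?_, rfl⟩
      · cases a <;> simp only [sa, act1, glue_at, glue_upd]
        rfl
      · simp only [glue]
        split_ifs
        exacts [hσ i, h2 _]) h _ hs rfl
  rwa [mul_one] at e

/-- The state at the start and at the end of a call. -/
def fr (d : ℕ) (l : List ℕ) : S1 :=
  (fun i => if i = 1 then [d] else if i = 2 then l else
    if i = 3 then List.replicate l.length 1 else [], 0)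

theorem fr_z (d : ℕ) (l : List ℕ) : Frm.Z d (fun _ => []) (fun _ => []) (sole 0 l) (fr d l) := by
  refine ⟨rfl, rfl, rfl, fun m => ?_, fun m => ?_⟩ <;> rcases m with _ | m <;> simp [fr, sole]

theorem z_eq {d : ℕ} {U V : ℕ → List ℕ} {s t t' : S1} (h : Frm.Z d U V s t)
    (h' : Frm.Z d U V s t') : t = t' := by
  refine Prod.ext (funext fun i => ?_) (h.pos.trans h'.pos.symm)
  obtain rfl | rfl | ⟨m, rfl | rfl⟩ : i = 0 ∨ i = 1 ∨ ∃ m, i = 2 * m + 2 ∨ i = 2 * m + 3 := by
    by_cases k : i < 2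
    · omega
    · exact Or.inr (Or.inr ⟨i / 2 - 1, by omega⟩)
  exacts [h.s0.trans h'.s0.symm, h.s1.trans h'.s1.symm, (h.val m).trans (h'.val m).symm,
    (h.flg m).trans (h'.flg m).symm]

open Itp in
theorem core (r : PO) : ∃ (p : Prog A1 C1) (c E : ℕ), 1 ≤ E ∧ ∀ (x : List Bool) (K β P Q d B : ℕ)
    (F : Orc → List ℕ → ℕ) (l : List ℕ), 1 ≤ K → (∀ g l, F g l ≤ β) →
    (∀ (g : List ℕ → ℕ) (τ : ℕ) (l : List ℕ), (∀ l, g l ≤ β) → (∀ a ∈ l, a ≤ β) → l.length ≤ K →
      Eo x K β τ g r (sole 0 l) (sole 0 [F g l]) (P + Q * τ)) →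
    (∀ a ∈ l, a ≤ β) → l.length ≤ K → E * (K + 1) * (d + 1) ≤ B →
      Len B (lf [] (fr d l)) ∧ Ex x B p (lf [] (fr d l)) (lf [] (fr d [rc F d l]))
        ((P + K + 1) * (c * (Q + 1)) ^ (d + 1) * 3 * E) := by
  classical
  obtain ⟨N, hN⟩ := r.exists_bound Frm.ix
  obtain ⟨q, hq⟩ : ∃ q, q = Frm.body N r := ⟨_, rfl⟩
  obtain ⟨L, hL⟩ : ∃ L, L = subs (.act none) ++ subs q := ⟨_, rfl⟩
  have hp : subs (.act none) ⊆ L := hL ▸ List.subset_append_left _ _
  have hq' : subs q ⊆ L := hL ▸ List.subset_append_right _ _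
  have hl : L.length = 1 + (subs q).length := by rw [hL, List.length_append]; rfl
  refine ⟨.seq (pushn (L.idxOf (.act none))) (W L (fun u => L.idxOf u) q), 4 * N + 6 + 8,
    4 * L.length + 8, by omega, fun x K β P Q d B F l h1 hF hr hβ hK hB => ?_⟩
  have hf : Frm.Fr 0 (fun _ => []) fun _ => [] :=
    ⟨fun _ => rfl, fun _ => rfl, rfl, rfl, fun _ => le_rfl, fun _ => le_rfl⟩
  have ls : Len K (sole 0 l) := Len.upd (h := 0) (σ := fun _ => []) (fun _ => Nat.zero_le _) 0 hK
  have hK' : K + 1 ≤ (K + 1) * (d + 1) := Nat.le_mul_of_pos_right _ (by omega)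
  obtain ⟨t, e, z⟩ := Frm.call (K' := (K + 1) * (d + 1)) h1 hF hN hr d 0 (by omega) _ _ _ _ hf
    (fr_z d l) ls (fun m k => by simp [sole, update_of_ne (show m ≠ 0 by omega)]) rfl
    (by simpa [sole] using hβ)
  obtain rfl : t = fr d [rc F d l] := z_eq z (by simpa [sole] using fr_z d [rc F d l])
  rw [← hq] at e
  have g : Len ((K + 1) * (d + 1)) (fr d l) := fun i =>
    ((fr_z d l).len hf ls i).1.trans (by omega)
  rw [mul_assoc] at hB
  have b1 : (K + 1) * (d + 1) ≤ B := le_trans (Nat.le_mul_of_pos_left _ (by omega)) hB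
  have b2 : 1 + (d + 1) * (subs q).length ≤ B := by
    have : d + 1 ≤ (K + 1) * (d + 1) := Nat.le_mul_of_pos_left _ (by omega)
    have := Nat.mul_le_mul_left (4 * L.length + 8) this
    rw [hl] at this hB
    nlinarith
  obtain ⟨k, e1, b3⟩ := outer (B := B) (N := L.length) (cd := fun u => L.idxOf u)
    (fun u hu => List.getElem?_idxOf hu) (fun u => List.idxOf_le_length) b1 hq' (d + 1) e hp g []
    (lf [] (fr d [rc F d l])) 1 (by simpa [subs] using b2) (.loopF rfl)
  have e0 := ex_pushn (x := x) (g.mono b1) (v := []) (by simp only [List.length_nil]; omega)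
    (L.idxOf (.act none))
  have h2 : L.idxOf (.act none) ≤ L.length := List.idxOf_le_length
  refine ⟨len_lf (g.mono b1) (Nat.zero_le _), (e0.seq e1).weak ?_⟩
  rw [mul_right_comm _ 3]
  omega

theorem time {B K Q d c1 c2 E e : ℕ} (hK : K ≤ B) (hQ : Q ≤ pw B e) (hd : (Q + 2) ^ d ≤ pw B e) :
    (pw (B + pw B e) 4 + pw (B + pw B e) c1 + K + 1) * (c2 * (pw Q c1 + 1)) ^ (d + 1) * 3 * E ≤
      pw B ((e + 2) * (2 * (2 * c1 + c2 + 14 + E))) := by
  have h := SC.M.time1 (B := B + pw B e) (K := K) (Q := Q) (d := d) (cD := 0) (c1 := c1) (c2 := c2)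
    (cA := 0) (E := E) (by omega) (by omega)
  simp only [add_zero, zero_add] at h
  generalize 2 * c1 + c2 + 14 + E = a at h ⊢
  have h1 : pw Q (a * d) ≤ pw (B + pw B e) a := by
    rw [pw, mul_comm, pow_mul]
    exact Nat.pow_le_pow_left (by omega) a
  have h2 := Nat.mul_le_mul_left (pw (B + pw B e) a) h1
  rw [pw_mul, ← two_mul] at h2
  refine le_trans (Nat.mul_le_mul_right E ?_) (h.trans (h2.trans (pw_pw B e _)))
  have h3 : pw (B + pw B e) 0 = 1 := rfl
  rw [h3]
  omega

end RecC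

open RecC in
/-- RECC. -/
theorem recC : RecCS := by
  intro κ0 q β D F e ⟨cF, _, kF⟩ hβ h1 hb
  obtain ⟨pF, kF⟩ := kF (fun _ => 1) 2 fun _ => by omega
  obtain ⟨p, c2, E, hE, hp⟩ := core (Rec.body pF)
  refine ⟨E, fun κ hκ hD h0 hB => ?_⟩
  have k0 : ∀ x, κ0 x + 1 ≤ κ x := fun x => le_trans (by
    rw [mul_assoc]
    exact (Nat.le_mul_of_pos_right _ (by omega)).trans (Nat.le_mul_of_pos_left _ hE)) (hκ x)
  obtain ⟨cL, _, kL⟩ : Cm κ fun x ρ => clip (κ0 x) (β x) (ρ 0) :=
    (kitOne κ).tab (fun x ρ i => min (β x) (gt (ρ 0) i)) (fun x => by have := k0 x; omega) h0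
      (PR.K.min hB (PR.K.gt (PR.K.vL 1) (PR.K.v 0)))
  obtain ⟨cT, _, kT⟩ : Cm κ fun x _ => tab (κ0 x) fun _ => 1 :=
    (kitOne κ).tab (fun _ _ _ => 1) (fun x => by have := k0 x; omega) h0 (PR.K.c 1)
  obtain ⟨cD, _, kD⟩ := hD
  obtain ⟨a, ha⟩ : ∃ a, a = cD + cL + cT + (e + 2) * (2 * (2 * cF + c2 + 14 + E)) + e + 1 :=
    ⟨_, rfl⟩
  have pe : ∀ (x : List Bool) B, x.length ≤ B → (x.length + 2) ^ e ≤ pw B e := fun x B h =>
    Nat.pow_le_pow_left (by omega) e
  refine ⟨a + 4, fun x ρ B h y hy => ?_, fun ℓ b hℓ => ?_⟩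
  · rw [List.mem_singleton.1 hy]
    exact (Rec.rc_le (hβ x) _ _).trans ((hb x).1.trans ((pe x B h.2.2.1).trans
      (pw_mono le_rfl (by omega))))
  obtain ⟨pD, kD⟩ := kD ℓ (b + 3) fun i => by have := hℓ i; omega
  obtain ⟨pL, kL⟩ := kL ℓ (b + 4) fun i => by have := hℓ i; omega
  obtain ⟨pT, kT⟩ := kT ℓ (b + 5) fun i => by have := hℓ i; omega
  refine ⟨.seq pD (.seq pL (.seq pT (.seq (p.bind (fun a => .act (sa (b + 1) a)) (sc (b + 1)))
    (.seq (mvTop (b + 4) b) (.seq (clr (b + 3)) (clr (b + 5))))))), fun x σ B h g hσ => ?_⟩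
  obtain ⟨k1, k2, k3, _⟩ := id h
  obtain ⟨q1, q2, q3⟩ := hb x
  have q0 := pe x B k3
  have := k0 x
  have n : ∀ j i, ℓ i ≠ b + j := fun j i => by have := hℓ i; omega
  have e1 := kD x σ B h g fun j k => hσ j (by omega)
  have g1 := e1.good g
  have e2 := kL x _ B (by simpa only [update_of_ne (n _ _)] using h) g1 fun j k => by
    rw [update_of_ne (by omega), hσ j (by omega)]
  have g2 := e2.good g1
  have e3 := kT x _ B (by simpa only [update_of_ne (n _ _)] using h) g2 fun j k => by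
    rw [update_of_ne (by omega), update_of_ne (by omega), hσ j (by omega)]
  simp only [update_of_ne (n _ _)] at e2 e3
  obtain ⟨l, hl⟩ : ∃ l, l = clip (κ0 x) (β x) (σ (ℓ 0)) := ⟨_, rfl⟩
  dsimp only
  rw [← hl] at e2 e3 ⊢
  have l1 : l.length = κ0 x := by simp [hl, clip, tab]
  have l2 : ∀ a ∈ l, a ≤ β x := fun a m => by
    rw [hl] at m
    obtain ⟨i, _, rfl⟩ := List.mem_map.1 m
    exact min_le_left _ _
  have z : Len (κ0 x) ((fun _ => [] : ℕ → List ℕ), 0) := fun _ => Nat.zero_le _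
  obtain ⟨g4, e4⟩ := hp x (κ0 x) (β x) (pw (B + pw B e) 4 + pw (B + pw B e) cF) (pw (q x) cF) (D x)
    (κ x) (F x) l (h1 x) (hβ x) (fun g τ l hg hl hlK => by
      have hl' : ∀ a ∈ l, a ≤ B + pw B e := fun a m => (hl a m).trans (by omega)
      have u := kF x g (sole 1 l).1 (B + pw B e) τ
        ⟨⟨h1 x, by omega, by omega, fun _ => by simpa [sole] using hl'⟩, by omega, hg⟩
        (z.upd 1 hlK) (by simp [sole])
        fun j hj => by simp [sole, update_of_ne (show j ≠ 1 by omega)]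
      have u' : Eo x (κ0 x) (β x) τ g pF (sole 1 l) (update (sole 1 l).1 2 [F x g l], 0)
          (pw (B + pw B e) cF + pw (q x) cF * τ) := u.of_eq (by simp [sole]) le_rfl
      exact (Rec.body_ok (h1 x) (by omega) ((hβ x g l).trans (by omega)) hl' hlK u').weak
        (by omega)) l2 l1.le (hκ x)
  have e5 := (shift (k := b + 1) g g4 e4).weak
    (time (B := B) (by omega) (q2.trans q0) (q3.trans q0))
  have gl : ∀ l : List ℕ, glue (b + 1) σ (Itp.lf [] (fr (D x) l)) =
      (update (update (update σ (b + 3) [D x]) (b + 4) l) (b + 5) (List.replicate l.length 1),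
        0) := fun l => by
    refine Prod.ext (funext fun i => ?_) rfl
    by_cases k : i < b + 1
    · simp only [glue, if_pos k, update_apply]
      split_ifs <;> first | rfl | omega
    · obtain ⟨j, rfl⟩ : ∃ j, i = j + (b + 1) := ⟨i - (b + 1), by omega⟩
      rw [glue_at]
      simp only [update_apply, hσ (j + (b + 1)) (by omega)]
      rcases j with _ | j <;> simp only [Itp.lf, cons, fr] <;> split_ifs <;> first | rfl | omega
  have tb : (tab (κ0 x) fun _ => 1) = List.replicate l.length 1 := by simp [tab, l1]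
  rw [gl, gl] at e5
  rw [tb] at e3
  have g5 := e5.good (e3.good (e2.good g1))
  have e6 := ex_mvTop (x := x) g5 (i := b + 4) (j := b) (a := rc (F x) (D x) l) (l := [])
    (by omega) (by simp) (by simp [hσ b le_rfl]; omega)
  have e7 := ex_clr (x := x) (e6.good g5) (b + 3)
  have e8 := ex_clr (x := x) (e7.good (e6.good g5)) (b + 5)
  refine (e1.seq (e2.seq (e3.seq (e5.seq (e6.seq (e7.seq e8)))))).of_eq ?_ ?_
  · congr 1
    funext i
    have s3 := hσ (b + 3) (by omega)
    have s4 := hσ (b + 4) (by omega)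
    have s5 := hσ (b + 5) (by omega)
    have s0 := hσ b le_rfl
    clear * - s0 s3 s4 s5
    simp only [update_apply]
    split_ifs <;> first | rfl | omega | simp_all
  · have u : ∀ c, c ≤ a → pw B c ≤ pw B a := fun c k => pw_mono le_rfl k
    have u1 := u cD (by omega)
    have u2 := u cL (by omega)
    have u3 := u cT (by omega)
    have u4 := u ((e + 2) * (2 * (2 * cF + c2 + 14 + E))) (by omega)
    have u5 := u e (by omega)
    have u6 := le_pw B (c := a) (by omega)
    have u7 := Rec.rc_le (hβ x) (D x) l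
    have u8 : pw B a * 2 ^ 4 ≤ pw B (a + 4) := by
      rw [← pw_mul]
      exact Nat.mul_le_mul_left _ (Nat.pow_le_pow_left (by omega) 4)
    omega

end Pool.Agent.MP_1a6d78_lc.GM
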