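import Pool.Agent.MP_1a6d78_lc.GM.Spec

/-! PROJECT GM: a program runs on a virtual input. -/

namespace Pool.Agent.MP_1a6d78_lc.GM

open Function ED SC

namespace Vin

/-- `σ` up to `b`, then `w`. -/
def ov (σ : ℕ → List ℕ) (b : ℕ) (w : ℕ → List ℕ) : ℕ → List ℕ := fun i =>
  if i ≤ b then σ i else w (i - (b + 1))

variable {σ w : ℕ → List ℕ} {b K : ℕ} {κ q β : List Bool → ℕ}

theorem ov_lo {i : ℕ} (h : i ≤ b) : ov σ b w i = σ i := if_pos h

theorem ov_hi (j : ℕ) : ov σ b w (b + 1 + j) = w j := by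
  rw [ov, if_neg (by omega), Nat.add_sub_cancel_left]

theorem ov_upd (j : ℕ) (l : List ℕ) : update (ov σ b w) (b + 1 + j) l = ov σ b (update w j l) := by
  funext i
  simp only [update_apply, ov]
  split_ifs <;> first | rfl | omega

theorem ov_len {h h' h'' : ℕ} (k : Len K (σ, h)) (k' : Len K (w, h')) : Len K (ov σ b w, h'') :=
  fun i => by
    dsimp only [ov]
    split_ifs
    exacts [k _, k' _]

theorem asg (ψ : ℕ → List Bool → Orc → Env → ℕ) (hψ : ∀ i, Nq κ q β (ψ i)) (n : ℕ) (hn : n ≤ 9) :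
    ∃ c, ∀ (ℓ : ℕ → ℕ) (b M : ℕ), (∀ i, 0 < ℓ i ∧ ℓ i < b) → 9 ≤ M → ∃ p : PO,
      ∀ (x : List Bool) (g : Orc) (σ w : ℕ → List ℕ) (B τ : ℕ),
        Bq κ q β x g (cons (w 8) fun i => σ (ℓ i)) B → Len (κ x) (ov σ b w, 0) → σ 0 = [] →
        (∀ m, M ≤ m → w m = []) → Eo x (κ x) (β x) τ g p (ov σ b w, 0)
          (ov σ b fun i => if i < n then [ψ i x g (cons (w 8) fun i => σ (ℓ i))] else w i, 0)
          (pw B c + pw (q x) c * τ) := by
  induction n with
  | zero => exact ⟨0, fun _ _ _ _ _ => ⟨up Itp.skip, fun x g σ w B τ _ _ _ _ =>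
      (Exec.upO Itp.ex_skip).weak (Nat.le_add_right _ _)⟩⟩
  | succ n ih =>
    obtain ⟨c, h⟩ := ih (by omega)
    obtain ⟨a, f1, f2⟩ := hψ n
    refine ⟨20 + (c + a + 1), fun ℓ b M hℓ hM => ?_⟩
    obtain ⟨p, hp⟩ := h ℓ b M hℓ hM
    obtain ⟨r, hr⟩ := f2 (PA.lay ℓ (b + 1 + 8)) (b + 1 + M) fun i => by
      cases i with
      | zero => exact ⟨Nat.succ_pos _, by simp only [PA.lay]; omega⟩
      | succ i => exact ⟨(hℓ i).1, (hℓ i).2.trans_le (by omega)⟩
    refine ⟨.seq p (.seq r (up (.seq (clr (b + 1 + n)) (mvTop (b + 1 + M) (b + 1 + n))))),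
      fun x g σ w B τ hB hσ hz h0 => ?_⟩
    have a1 := hp x g σ w B τ hB hσ hz h0
    have g1 := a1.goodO hσ
    set w' := fun i => if i < n then [ψ i x g (cons (w 8) fun i => σ (ℓ i))] else w i with hw
    have hρ : (fun i => ov σ b w' (PA.lay ℓ (b + 1 + 8) i)) = cons (w 8) fun i => σ (ℓ i) := by
      funext i
      cases i with
      | zero => exact (ov_hi 8).trans (if_neg (by omega))
      | succ i => exact ov_lo (hℓ i).2.le
    have a2 := hr x g (ov σ b w') B τ (hρ ▸ hB) g1 ((ov_lo (Nat.zero_le _)).trans hz)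
      fun j hj => (if_neg (by omega)).trans ((if_neg (by omega)).trans (h0 _ (by omega)))
    rw [hρ, ov_upd] at a2
    have g2 := a2.goodO g1
    have a3 := ex_clr (x := x) g2 (b + 1 + n)
    rw [ov_upd] at a3
    have a4 := ex_mvTop (x := x) (a3.good g2) (i := b + 1 + M) (j := b + 1 + n) (l := [])
      (by omega) ((ov_hi M).trans ((update_of_ne (by omega) _ _).trans (update_self _ _ _)))
      (by rw [ov_hi, update_self]; exact hB.1.1)
    rw [ov_upd, ov_upd, ov_hi, update_self] at a4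
    refine (a1.seq (a2.seq (Exec.upO (a3.seq a4)))).of_eq ?_ ?_
    · refine congrArg (fun w => (ov σ b w, 0)) (funext fun k => ?_)
      simp only [update_apply, hw]
      split_ifs with u1 u2 u3 <;> first | rfl | omega | skip
      exacts [u1 ▸ rfl, (h0 k (by omega)).symm]
    · have h1 := PA.time B (κ x) c a hB.1.2.1
      have h2 := f1 x g _ B hB _ List.mem_cons_self
      have h3 := OA.calls (q x) τ (a := c) (c := a) (n := 20 + (c + a + 1)) (by omega)
      have h4 := Nat.le_mul_of_pos_left (3 * pw B a + 4) hB.1.1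
      omega

/-- The slots: the answers of the eight tests and the position of the head. -/
def fl (y : List Bool) (p i : ℕ) : ℕ :=
  if i = 8 then p else if y.length ≤ p then i / 4 else if bit y p = 0 then i / 2 % 2 else i % 2

def idx (f : Option Bool → Bool) : ℕ :=
  4 * (f none).toNat + 2 * (f (some false)).toNat + (f (some true)).toNat

theorem idx_le (f : Option Bool → Bool) : idx f ≤ 7 := by
  unfold idx
  cases f none <;> cases f (some false) <;> cases f (some true) <;> decide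

theorem fl_idx (y : List Bool) (p : ℕ) (f : Option Bool → Bool) :
    (fl y p (idx f) != 0) = f y[p]? := by
  rw [fl, if_neg (by have := idx_le f; omega), idx, bit]
  rcases h : y[p]? with _ | _ | _
  · rw [if_pos (List.getElem?_eq_none_iff.1 h)]
    cases f none <;> cases f (some false) <;> cases f (some true) <;> rfl
  all_goals
    rw [if_neg fun k => by simp [List.getElem?_eq_none k] at h]
    cases f none <;> cases f (some false) <;> cases f (some true) <;> rfl

def vw (y : List Bool) (s : S1) : ℕ → List ℕ := ov (fun i => [fl y s.2 i]) 8 s.1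

def fo (b : ℕ) (r : SignType → PO) : Option A1 → PO
  | some (.push m) => .act (some (.push (b + 1 + (8 + 1 + m))))
  | some (.pop m) => .act (some (.pop (b + 1 + (8 + 1 + m))))
  | some (.inc m) => .act (some (.inc (b + 1 + (8 + 1 + m))))
  | some (.dec m) => .act (some (.dec (b + 1 + (8 + 1 + m))))
  | some (.inp d) => r d
  | none => .act none

def fc (b : ℕ) : C1 → C1
  | .ne m => .ne (b + 1 + (8 + 1 + m))
  | .nz m => .nz (b + 1 + (8 + 1 + m))
  | .rd f => .nz (b + 1 + idx f)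

def clrs (e : ℕ) : ℕ → Prog A1 C1
  | 0 => Itp.skip
  | n + 1 => .seq (clrs e n) (clr (e + n))

theorem ex_clrs {x : List Bool} (h : Len K (ov σ b w, 0)) (n : ℕ) :
    Ex x K (clrs (b + 1) n) (ov σ b w, 0) (ov σ b fun j => if j < n then [] else w j, 0)
      (n * (2 * K + 1) + 1) := by
  induction n with
  | zero => exact Itp.ex_skip.weak (by omega)
  | succ n ih =>
    refine (ih.seq (ex_clr (ih.good h) _)).of_eq ?_ (by rw [Nat.succ_mul n]; omega)
    rw [ov_upd]
    refine congrArg (fun w => (ov σ b w, 0)) (funext fun k => ?_)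
    simp only [update_apply]
    split_ifs <;> first | rfl | omega

end Vin

open Vin in
theorem vin : VinS := by
  rintro κ1 f ⟨p, b0, c, hp⟩ k1 f1 κ q β y hy hl hb
  obtain ⟨N, hN⟩ := (up p).exists_bound Frm.ix
  have hψ : ∀ (d : SignType) (i : ℕ), Nq κ q β fun x g ρ =>
      fl (y x g (tl ρ)) (min (move (hd (ρ 0)) d) (y x g (tl ρ)).length) i := fun d i => by
    have h1 : Nq κ q β fun x g ρ => min (move (hd (ρ 0)) d) (y x g (tl ρ)).length := by
      refine Q.min ?_ (Q.w hl)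
      cases d
      exacts [Q.cg (Q.v 0) fun _ _ _ => by simp [move],
        Q.cg (Q.sub (Q.v 0) (Q.c 1)) fun _ _ _ => by simp [move]; omega,
        Q.cg (Q.add (Q.v 0) (Q.c 1)) fun _ _ _ => by simp [move]]
    exact Q.ite (Q.eq (Q.c i) (Q.c 8)) h1 (Q.ite (Q.le (Q.w hl) h1) (Q.c _)
      (Q.ite (Q.eq (Q.app (Q.wF hb) h1) (Q.c 0)) (Q.c _) (Q.c _)))
  choose a ha using fun d => asg _ (hψ d) 9 le_rfl
  obtain ⟨A, hA⟩ : ∃ A, ∀ d, a d ≤ A := (Set.finite_range a).bddAbove.imp fun _ h d => h ⟨d, rfl⟩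
  refine ⟨A + (c + A) + 1 + (N + b0 + 10 + 13 + (1 + 1)) + 1, fun x g ρ B _ v hv =>
    (List.mem_singleton.1 hv).trans_le ((f1 _).trans (one_le_pw _ _)), fun ℓ b hℓ => ?_⟩
  choose r hr using fun d => ha d ℓ b (N + b0 + 10) hℓ (by omega)
  refine ⟨.seq (r 0) (.seq ((up p).bind (fo b r) (fc b)) (up (.seq
    (cpTop (b + 1 + (8 + 1 + b0)) b (b + 1 + (N + b0 + 10))) (clrs (b + 1) (N + b0 + 10))))),
    fun x g σ B τ hB hσ hz h0 => ?_⟩
  obtain ⟨y1, y2, y3⟩ := hy x g fun i => σ (ℓ i)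
  set Y := y x g fun i => σ (ℓ i) with hY
  have K1 : 1 ≤ κ x := hB.1.1
  have len : ∀ s, Len (κ1 Y) s → Len (κ x) (ov σ b (vw Y s), 0) := fun s h =>
    ov_len hσ (h' := 0) (ov_len (h := 0) (fun _ => K1) (h.mono y2))
  have emp : ∀ s, Frm.Emp N s → ∀ m, N + b0 + 10 ≤ m → vw Y s m = [] := fun s h m hm =>
    (if_neg (by omega)).trans (h _ (by omega))
  have run : ∀ d (F v : ℕ → List ℕ), (∀ u ∈ F 8, u ≤ B) → Len (κ x) (ov σ b (ov F 8 v), 0) →
      (∀ m, N + b0 + 10 ≤ m → ov F 8 v m = []) → Eo x (κ x) (β x) τ g (r d) (ov σ b (ov F 8 v), 0)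
        (ov σ b (vw Y (v, min (move (hd (F 8)) d) Y.length)), 0) (pw B A + pw (q x) A * τ) :=
    fun d F v j1 j2 j3 => (hr d x g σ (ov F 8 v) B τ (hB.cons j1) j2 hz j3).of_eq
      (congrArg (fun w => (ov σ b w, 0)) (funext fun k => by
        simp only [vw, ov]
        split_ifs <;> first | rfl | omega))
      (Nat.add_le_add (pw_mono le_rfl (hA d)) (Nat.mul_le_mul_right _ (pw_mono le_rfl (hA d))))
  have e0 : ov σ b (ov (fun _ => []) 8 fun _ => []) = σ := funext fun k => by
    simp only [ov, ite_self]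
    split_ifs
    exacts [rfl, (h0 k (by omega)).symm]
  have a1 := run 0 (fun _ => []) (fun _ => []) nofun (e0.symm ▸ hσ) fun m _ => ite_self _
  rw [e0] at a1
  obtain ⟨s, j1, j2⟩ := hp Y (q x) (k1 _) y3 y1
  have D1 : 1 ≤ pw B A + pw (q x) A * τ := (one_le_pw _ _).trans (Nat.le_add_right _ _)
  obtain ⟨t, a2, rfl, -, j3⟩ := simq (R := Rr Y (κ1 Y) (up p) 0) (tst := tst1 Y)
    (R' := Ro x (κ x) (β x) τ g) (tst' := tst1 x)
    (fun a => Frm.ix a < N) (fun s t => t = (ov σ b (vw Y s), 0) ∧ (Len (κ1 Y) s ∧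
      s.2 ≤ Y.length) ∧ Frm.Emp N s) (fo b r) (fc b) _ D1
    (by
      rintro c s t ⟨rfl, -⟩
      cases c with
      | rd f =>
        simp only [fc, tst1, ov_hi, vw, ov_lo ((idx_le f).trans (Nat.le_succ 7))]
        exact fl_idx Y s.2 f
      | _ => simp only [fc, tst1, vw, ov_hi])
    (by
      rintro (_ | u) s s' n t i1 i2 ⟨rfl, ⟨i3, i4⟩, i5⟩
      · exact i2.elim
      obtain ⟨rfl, i6, rfl⟩ := i2
      refine ⟨_, ?_, rfl, ⟨i6, ?_⟩, i5.act i1⟩
      · cases u with
        | inp d =>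
          exact (run d _ s.1 (fun u hu => (List.mem_singleton.1 hu).trans_le
            (i4.trans (y1.trans hB.hq))) (len s i3) (emp s i5)).weak (one_mul _).ge
        | _ =>
          exact (Exq.act ⟨by simp only [act1, vw, ov_hi, ov_upd], len _ i6, rfl⟩).weak (by omega)
      · cases u with
        | inp d => exact min_le_right _ _
        | _ => exact i4)
    (Exec.upR (q := up p) (d := 0) j1) hN _
    ⟨rfl, ⟨fun _ => Nat.zero_le _, Nat.zero_le _⟩, fun _ _ => rfl⟩
  have g2 := a2.goodO (len _ fun _ => Nat.zero_le _)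
  have a3 := ex_cpTop (x := x) g2 (i := b + 1 + (8 + 1 + b0)) (j := b)
    (t := b + 1 + (N + b0 + 10)) (by omega) (by omega) (by omega)
    (by rw [ov_lo le_rfl, h0 b le_rfl]; exact K1) (by rw [ov_hi, emp s j3 _ le_rfl]; exact K1)
  have e1 : ∀ w, update (ov σ b w) b [f Y] = ov (update σ b [f Y]) b w := fun w => funext fun k => by
    simp only [update_apply, ov]
    split_ifs <;> first | rfl | omega
  have g3 := a3.good g2
  rw [ov_hi, vw, ov_hi, j2, ov_lo le_rfl, h0 b le_rfl, e1] at a3 g3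
  refine (a1.seq (a2.seq (Exec.upO (a3.seq (ex_clrs g3 _))))).of_eq ?_ ?_
  · refine congrArg (·, 0) (funext fun k => ?_)
    simp only [update_apply]
    rw [ov, update_apply]
    split_ifs <;> first | rfl | omega | skip
    exacts [(h0 k (by omega)).symm, (emp s j3 _ (by omega)).trans (h0 k (by omega)).symm]
  · have h1 : pw (q x) c * pw B A ≤ pw B (c + A) :=
      (Nat.mul_le_mul_right _ (pw_mono hB.hq le_rfl)).trans (pw_mul _ _ _).le
    have h2 := OA.calls (q x) τ (a := A) (c := c + A)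
      (n := A + (c + A) + 1 + (N + b0 + 10 + 13 + (1 + 1)) + 1) (by omega)
    have h3 := pw_add B A (c + A)
    have h4 := pw_add B (A + (c + A) + 1) (N + b0 + 10 + 13 + (1 + 1))
    have h5 : 2 * κ x + 1 ≤ pw B (1 + 1) := by
      have := two_mul_pw B 1
      have := le_pw B (c := 1) le_rfl
      have := hB.1.2.1
      omega
    have h6 := (Nat.mul_le_mul (const_le_pw B (N + b0 + 10 + 13)) h5).trans (pw_mul _ _ _).le
    have h7 := f1 Y
    rw [add_mul _ 13] at h6
    rw [mul_add (pw (q x) c), ← mul_assoc, pw_mul]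
    omega

end Pool.Agent.MP_1a6d78_lc.GM
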