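import Pool.Agent.MP_1a6d78_lc.GM.Spec

/-! PROJECT GM, rows SUBO and MACHW: the oracle is replaced by a subroutine. -/

namespace Pool.Agent.MP_1a6d78_lc.GM

open Function ED SC

namespace SubO

/-- A call runs `r` and moves the answer to stack 0. -/
def fo (N : ℕ) (r : Prog A1 C1) : Option A1 → Prog A1 C1
  | some a => .act a
  | none => .seq r (.seq (clr 0) (mvTop N 0))

theorem step {x : List Bool} {K β τ T N : ℕ} {g : Orc} {r : Prog A1 C1} (h1 : 1 ≤ K) (hN : 0 < N)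
    (hg : ∀ l, g l ≤ β) (hτ : T + (2 * K + 1 + (3 * β + 3)) ≤ τ)
    (hr : ∀ σ : ℕ → List ℕ, (∀ y ∈ σ 0, y ≤ β) → Len K (σ, 0) → (∀ j, N ≤ j → σ j = []) →
      Ex x K r (σ, 0) (update σ N [g (σ 0)], 0) T)
    (u : Option A1) (s s' : S1) (n : ℕ) (k1 : Frm.ix u < N) (k2 : Ro x K β τ g u s s' n)
    (k3 : Len K s) (k4 : ∀ m, N ≤ m → s.1 m = []) :
    Ex x K (fo N r u) s s' n ∧ ∀ m, N ≤ m → s'.1 m = [] := by
  obtain ⟨s, h⟩ := s
  cases u with
  | some u =>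
    obtain ⟨rfl, k5, rfl⟩ := k2
    refine ⟨Exec.act u _ k5, fun m hm => ?_⟩
    cases u <;> simp only [Frm.ix] at k1 <;> simp only [act1] <;>
      first | exact (update_of_ne (by omega) _ _).trans (k4 m hm) | exact k4 m hm
  | none =>
    obtain ⟨rfl, k5, rfl, -, rfl⟩ := k2
    have c1 := hr s k5 k3 k4
    have g1 := c1.good k3
    have c2 := ex_clr (x := x) g1 0
    have c3 := ex_mvTop (x := x) (c2.good g1) (i := N) (j := 0) (a := g (s 0)) (l := []) hN.ne'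
      (by rw [update_of_ne hN.ne', update_self]) (by rw [update_self]; exact h1)
    refine ⟨(c1.seq (c2.seq c3)).of_eq ?_ ?_, fun m hm =>
      (update_of_ne (by omega) _ _).trans (k4 m hm)⟩
    · refine congrArg (·, 0) (funext fun k => ?_)
      rw [update_self]
      simp only [update_apply]
      split_ifs with u1 u2
      exacts [rfl, (k4 k u2.ge).symm, rfl]
    · have := hg (s 0)
      omega

theorem run {x : List Bool} {K β τ N : ℕ} {g : Orc} {f : Option A1 → Prog A1 C1}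
    (hf : ∀ (u : Option A1) (s s' : S1) (n : ℕ), Frm.ix u < N → Ro x K β τ g u s s' n → Len K s →
      (∀ m, N ≤ m → s.1 m = []) → Ex x K (f u) s s' n ∧ ∀ m, N ≤ m → s'.1 m = [])
    {p : PO} {s s' : S1} {n : ℕ} (h : Eo x K β τ g p s s' n) :
    (p.all fun a => Frm.ix a < N) → Len K s → (∀ m, N ≤ m → s.1 m = []) →
      Ex x K (p.bind f id) s s' n ∧ ∀ m, N ≤ m → s'.1 m = [] := by
  induction h with
  | act h => exact fun hp k3 k4 => hf _ _ _ _ hp h k3 k4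
  | seq _ _ i j =>
    intro hp k3 k4
    obtain ⟨e1, r1⟩ := i hp.1 k3 k4
    obtain ⟨e2, r2⟩ := j hp.2 (e1.good k3) r1
    exact ⟨e1.seq e2, r2⟩
  | iteT h _ i =>
    intro hp k3 k4
    obtain ⟨e1, r1⟩ := i hp.1 k3 k4
    exact ⟨.iteT h e1, r1⟩
  | iteF h _ i =>
    intro hp k3 k4
    obtain ⟨e1, r1⟩ := i hp.2 k3 k4
    exact ⟨.iteF h e1, r1⟩
  | loopF h => exact fun _ _ k4 => ⟨.loopF h, k4⟩
  | loopT h _ _ i j =>
    intro hp k3 k4
    obtain ⟨e1, r1⟩ := i hp k3 k4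
    obtain ⟨e2, r2⟩ := j hp (e1.good k3) r1
    exact ⟨.loopT h e1 e2, r2⟩
  | weak _ h i =>
    intro hp k3 k4
    obtain ⟨e1, r1⟩ := i hp k3 k4
    exact ⟨e1.weak h, r1⟩

theorem time {B q c a : ℕ} (hq : q ≤ B) :
    pw B c + pw q c * (pw B a + pw B 3) ≤ pw B (c + (c + (a + 3 + 1)) + 1) :=
  (Nat.add_le_add_left ((Nat.mul_le_mul (pw_mono hq le_rfl) (pw_add B a 3)).trans
    (pw_mul _ _ _).le) _).trans (pw_add _ _ _)

end SubO

open SubO in
theorem subO : SubOS := by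
  intro κ q β G A e ⟨c, _, hA⟩ ⟨a, _, hG⟩ hb he
  obtain ⟨p, hp⟩ := hA (fun _ => 1) 2 fun _ => ⟨Nat.one_pos, Nat.one_lt_two⟩
  obtain ⟨N, hN⟩ := p.exists_bound Frm.ix
  obtain ⟨r, hr⟩ := hG (fun _ => 0) (N + 1) fun _ => Nat.succ_pos N
  refine ⟨p.bind (fo (N + 1) r) id, 2, (e + 2) * (c + (c + (a + 3 + 1)) + 1),
    fun x B k1 k2 k3 => ?_⟩
  have l1 : (x.length + 2) ^ e ≤ B + pw B e :=
    (pw_mono (c := e) k3 le_rfl).trans (Nat.le_add_left _ _)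
  have l2 : B ≤ B + pw B e := Nat.le_add_right _ _
  have l3 := (he x).1.trans l1
  have l4 := (he x).2.trans l1
  generalize hB : B + pw B e = B' at l1 l2 l3 l4
  have e1 := hp x (G x) (fun _ => []) B' (pw B' a + pw B' 3)
    ⟨⟨k1, k2.trans l2, k3.trans l2, fun _ _ m => absurd m List.not_mem_nil⟩, max_le l3 l4, hb x⟩
    (fun _ => Nat.zero_le _) rfl fun _ _ => rfl
  have e2 := (run (N := N + 1) (f := fo (N + 1) r) (step (T := pw B' a) k1 (Nat.succ_pos N) (hb x)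
    (by
      have : pw B' 3 = B' * B' * B' + 6 * (B' * B') + 12 * B' + 8 := by unfold pw; ring
      omega)
    fun σ v1 v2 v3 => hr x σ B'
      ⟨k1, k2.trans l2, k3.trans l2, fun _ y hy => (v1 y hy).trans l3⟩ v2 v3) e1
    (p.all_mono (fun _ h => Nat.lt_succ_of_lt h) hN) (fun _ => Nat.zero_le _) fun _ _ => rfl).1
  refine ⟨_, e2.weak ((time l4).trans ?_), by simp [hd]⟩
  rw [← hB]
  exact pw_pw _ _ _

theorem machW : MachWS := by
  intro κ f ⟨p, b, c, hp⟩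
  obtain ⟨p2, c2, hp2⟩ := l12 p (.nz b)
  obtain ⟨p0, hp0⟩ := l20 p2
  obtain ⟨M, hM⟩ := ctl p0 c2
  refine ⟨M, 2 * c + 6, fun x B k1 k2 k3 => ?_⟩
  obtain ⟨s, e1, t1⟩ := hp x B k1 k2 k3
  obtain ⟨s2, e2, t2⟩ := hp2 x _ _ _ _ (Mach.lt_two B c) e1
  obtain ⟨s0, e0, t0⟩ := hp0 x _ _ _ e2
  have ht := Mach.time B c
  obtain ⟨m1, m2⟩ := hM x _ s0 _ (e0.weak (Nat.le_sub_one_of_lt ht))
  rw [Nat.sub_add_cancel (by omega), t0, t2] at m1
  refine ⟨by rw [← t1]; exact m1, fun t i => (m2 t i).trans (Nat.mul_le_mul_left _ ?_)⟩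
  nlinarith [Nat.zero_le (c * Nat.log 2 (B + 2)), Nat.zero_le (Nat.log 2 (B + 2))]

end Pool.Agent.MP_1a6d78_lc.GM
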