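import Pool.Agent.MP_1a6d78_lc.GM.Box
import Pool.Agent.MP_1a6d78_lc.GM.RecC
import Pool.Agent.MP_1a6d78_lc.GM.SubO
import Pool.Agent.MP_1a6d78_lc.GM.Vin

/-! PROJECT GM: the black box on a plane map given by programs. -/

namespace Pool.Agent.MP_1a6d78_lc.GM

open Classical ED PR SC

/-- BOXQ -/
def BoxQS : Prop :=
  ∃ bx : ℕ → (ℕ → ℕ) → (ℕ → ℕ) → (ℕ → Prop) → ℕ → ℕ → Prop,
    (∀ N ρ lk us s t, Pm N ρ → Iv N lk → gen N ρ lk = 0 → s < N → t < N →
      (bx N ρ lk us s t ↔ PL.Wk N ρ lk us s t)) ∧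
    ∀ e, ∃ A, ∀ κ q β N : List Bool → ℕ,
      (∀ x, N x ≤ (x.length + 2) ^ e ∧ A * lg x ^ 2 ≤ κ x ∧ (x.length + 2) ^ A ≤ q x) →
      Nq κ q β (fun x _ _ => N x) →
      ∀ (ρ lk : List Bool → Orc → Env → ℕ → ℕ) (us : List Bool → Orc → Env → ℕ → Prop)
        (s t : List Bool → Orc → Env → ℕ), Fq κ q β ρ → Fq κ q β lk → P1q κ q β us →
        Nq κ q β s → Nq κ q β t →
        Pq κ q β fun x g r => bx (N x) (ρ x g r) (lk x g r) (us x g r) (s x g r) (t x g r)

namespace Bq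

/-- The entries of the virtual code. -/
noncomputable def ent (N : ℕ) (ρ lk : ℕ → ℕ) (us : ℕ → Prop) (s t i : ℕ) : ℕ :=
  min N (if i = 0 then N else if i = 1 then s else if i = 2 then t else
    if i < 3 + N then ρ (i - 3) else if i < 3 + N + N then lk (i - (3 + N)) else
      if us (i - (3 + N + N)) then 1 else 0)

def ps (e : ℕ → ℕ) (i : ℕ) : ℕ := ∑ j ∈ Finset.range i, (e j + 1)

theorem un_succ (e : ℕ → ℕ) (M : ℕ) :
    unary (tab (M + 1) e) = unary (tab M e) ++ (List.replicate (e M) true ++ [false]) := by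
  simp [unary, tab, List.range_succ]

theorem un_len (e : ℕ → ℕ) : ∀ M, (unary (tab M e)).length = ps e M
  | 0 => rfl
  | M + 1 => by
    rw [un_succ, List.length_append, un_len e M, ps, ps, Finset.sum_range_succ]
    simp

theorem ps_mono (e : ℕ → ℕ) {i j : ℕ} (h : i ≤ j) : ps e i ≤ ps e j :=
  Finset.sum_le_sum_of_subset (Finset.range_mono h)

theorem un_bit (e : ℕ → ℕ) (p : ℕ) : ∀ M, bit (unary (tab M e)) p =
    if p < ps e M ∧ ∀ i < M, p + 1 ≠ ps e (i + 1) then 1 else 0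
  | 0 => by simp [bit, unary, tab, ps]
  | M + 1 => by
    have a : ps e (M + 1) = ps e M + (e M + 1) := Finset.sum_range_succ _ _
    have ih := un_bit e p M
    rw [bit] at ih ⊢
    rw [un_succ]
    rcases lt_or_ge p (ps e M) with h | h
    · rw [List.getElem?_append_left (by rwa [un_len]), ih]
      refine if_congr ⟨fun k => ⟨by omega, fun i hi => ?_⟩, fun k => ⟨h, fun i hi => k.2 i (by omega)⟩⟩
        rfl rfl
      rcases Nat.lt_succ_iff_lt_or_eq.1 hi with hi | rfl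
      · exact k.2 i hi
      · omega
    · rw [List.getElem?_append_right (by rwa [un_len]), un_len]
      refine if_congr ⟨fun k => ?_, fun k => ?_⟩ rfl rfl
      · have : p - ps e M < e M := by
          by_contra c
          rw [List.getElem?_append_right (by simpa using c)] at k
          rcases Nat.eq_zero_or_pos (p - ps e M - (List.replicate (e M) true).length) with z | z
          · rw [z] at k; simp at k
          · rw [List.getElem?_eq_none (by simp at z ⊢; omega)] at k; simp at k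
        refine ⟨by omega, fun i hi => ?_⟩
        rcases Nat.lt_succ_iff_lt_or_eq.1 hi with hi | rfl
        · have := ps_mono e (show i + 1 ≤ M from hi); omega
        · omega
      · have := k.2 M M.lt_succ_self
        have := k.1
        rw [List.getElem?_append_left (by simp; omega), List.getElem?_replicate, if_pos (by omega)]

theorem ps_le {e : ℕ → ℕ} {N : ℕ} (h : ∀ i, e i ≤ N) (M : ℕ) : ps e M ≤ M * (N + 1) := by
  refine (Finset.sum_le_card_nsmul _ _ (N + 1) fun i _ => Nat.succ_le_succ (h i)).trans ?_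
  simp

/-- The virtual code. -/
noncomputable def vc (N : ℕ) (ρ lk : ℕ → ℕ) (us : ℕ → Prop) (s t : ℕ) : List Bool :=
  unary (tab (3 + N + N + N) (ent N ρ lk us s t))

noncomputable def prm {N : ℕ} {ρ : ℕ → ℕ} (h : Pm N ρ) : Equiv.Perm (Fin N) :=
  Equiv.ofBijective (fun a => ⟨ρ a, h.1 a a.2⟩) (Finite.injective_iff_bijective.1
    fun a b k => Fin.ext (h.2 a a.2 b b.2 (congrArg Fin.val k)))

theorem ofFn_tab (N : ℕ) (f : ℕ → ℕ) : List.ofFn (fun a : Fin N => f a) = tab N f :=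
  List.ext_getElem (by simp [tab]) fun i _ _ => by simp [tab]

theorem tab_add (a b : ℕ) (f : ℕ → ℕ) : tab (a + b) f = tab a f ++ tab b fun i => f (a + i) := by
  simp [tab, List.range_add, Function.comp_def]

theorem vc_code {N : ℕ} {ρ lk : ℕ → ℕ} {us : ℕ → Prop} (σ α : Equiv.Perm (Fin N))
    (h1 : ∀ a : Fin N, ρ a = σ a) (h2 : ∀ a : Fin N, lk a = α a) (s t : Fin N) :
    vc N ρ lk us s t = PR.code σ α (fun a => decide (us a)) s t := by
  have a := s.2
  have b := t.2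
  rw [vc, PR.code, tab_add, tab_add, tab_add, ← ofFn_tab N, ← ofFn_tab N, ← ofFn_tab N]
  congr 2
  · congr 1
    · congr 1
      · simp [tab, List.range_succ, ent]
      · congr 1
        funext a
        rw [ent, if_neg (by omega), if_neg (by omega), if_neg (by omega), if_pos (by omega),
          Nat.add_sub_cancel_left, h1, min_eq_right (σ a).2.le]
    · congr 1
      funext a
      rw [ent, if_neg (by omega), if_neg (by omega), if_neg (by omega), if_neg (by omega),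
        if_pos (by omega), Nat.add_sub_cancel_left, h2, min_eq_right (α a).2.le]
  · congr 1
    funext a
    rw [ent, if_neg (by omega), if_neg (by omega), if_neg (by omega), if_neg (by omega),
      if_neg (by omega), Nat.add_sub_cancel_left]
    by_cases h : us a
    · simp [h]; omega
    · simp [h]

theorem reach_wk {N : ℕ} {ρ lk : ℕ → ℕ} {us : ℕ → Prop} (σ α : Equiv.Perm (Fin N))
    (h1 : ∀ a : Fin N, ρ a = σ a) (h2 : ∀ a : Fin N, lk a = α a) (s t : Fin N) :
    PR.Reach σ α (fun a => decide (us a)) s t ↔ PL.Wk N ρ lk us s t := by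
  constructor
  · intro h
    induction h with
    | refl => exact .refl
    | @tail b c _ k ih =>
      refine ih.tail ⟨b.2, ?_⟩
      rcases k with rfl | ⟨k, rfl⟩
      · exact Or.inl (h1 b).symm
      · exact Or.inr ⟨of_decide_eq_true k, (h2 b).symm⟩
  · intro h
    have : ∀ d, PL.Wk N ρ lk us s d →
        ∃ c : Fin N, (c : ℕ) = d ∧ PR.Reach σ α (fun a => decide (us a)) s c := fun d h => by
      induction h with
      | refl => exact ⟨s, rfl, .refl⟩
      | @tail b c _ k ih =>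
        obtain ⟨u, rfl, ih⟩ := ih
        rcases k.2 with rfl | ⟨k', rfl⟩
        · exact ⟨σ u, (h1 u).symm, ih.tail (Or.inl rfl)⟩
        · exact ⟨α u, (h2 u).symm, ih.tail (Or.inr ⟨decide_eq_true k', rfl⟩)⟩
    obtain ⟨c, e, k⟩ := this t h
    rwa [Fin.ext e] at k

theorem lg_vc {n N e L : ℕ} (h : N ≤ (n + 2) ^ e) (hL : L ≤ (3 + N + N + N) * (N + 1)) :
    L ≤ (n + 2) ^ (2 * e + 4) ∧ Nat.log 2 L + 1 ≤ (4 * e + 9) * (Nat.log 2 n + 1) := by
  have a : 1 ≤ (n + 2) ^ e := Nat.one_le_pow _ _ (by omega)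
  have b : L ≤ (n + 2) ^ (2 * e + 4) := by
    have : 2 ^ 4 ≤ (n + 2) ^ 4 := Nat.pow_le_pow_left (by omega) 4
    rw [pow_add, pow_mul']
    nlinarith
  have c : n + 2 ≤ 2 ^ (2 * (Nat.log 2 n + 1)) := by
    have : n < 2 ^ (Nat.log 2 n + 1) := Nat.lt_pow_succ_log_self (by omega) n
    have : 2 ^ 1 ≤ 2 ^ (Nat.log 2 n + 1) := Nat.pow_le_pow_right (by omega) (by omega)
    rw [pow_mul']
    nlinarith
  have d := (Nat.log_mono_right (b.trans (Nat.pow_le_pow_left c _))).trans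
    ((pow_mul 2 _ _ ▸ Nat.log_pow (by norm_num : 1 < 2) _).le)
  exact ⟨b, by nlinarith⟩

end Bq

open Bq

theorem boxQ : BoxQS := by
  obtain ⟨a, f, f1, f2, f3⟩ := box recC subO
  refine ⟨fun N ρ lk us s t => f (vc N ρ lk us s t) = 1, fun N ρ lk us s t h1 h2 h3 hs ht => ?_,
    fun e => ⟨(a + 1) * (4 * e + 9) ^ 2 + 2 + (2 * e + 4), fun κ q β N hb hN ρ lk us s t c1 c2 c3 c4 c5 => ?_⟩⟩
  · have h4 : Pm N lk := ⟨fun d hd => (h2 d hd).1, fun a ha b hb k => by
      rw [← (h2 a ha).2, k, (h2 b hb).2]⟩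
    have e1 : ∀ a : Fin N, ρ a = prm h1 a := fun _ => rfl
    have e2 : ∀ a : Fin N, lk a = prm h4 a := fun _ => rfl
    have pl : Planar (prm h1) (prm h4) := by
      rw [gen, Eul.ncl_conn e1 e2, Eul.ncl_sc e2, Eul.ncl_sc e1,
        Eul.ncl_sc (π := prm h1 * prm h4) fun a => by rw [e2, e1]; rfl] at h3
      unfold Planar
      omega
    rw [← reach_wk (prm h1) (prm h4) e1 e2 ⟨s, hs⟩ ⟨t, ht⟩,
      ← f3 N (prm h1) (prm h4) _ _ _ (Equiv.ext fun a => Fin.ext (h2 a a.2).2) pl,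
      ← vc_code (prm h1) (prm h4) e1 e2 ⟨s, hs⟩ ⟨t, ht⟩]
  have ce : Fq κ q β fun x g r => ent (N x) (ρ x g r) (lk x g r) (us x g r) (s x g r) (t x g r) :=
    Q.min hN (Q.ite (Q.eq (Q.v 0) (Q.c 0)) hN (Q.ite (Q.eq (Q.v 0) (Q.c 1)) (Q.w c4)
      (Q.ite (Q.eq (Q.v 0) (Q.c 2)) (Q.w c5) (Q.ite (Q.lt (Q.v 0) (Q.add (Q.c 3) hN))
        (Q.app (Q.wF c1) (Q.sub (Q.v 0) (Q.c 3)))
        (Q.ite (Q.lt (Q.v 0) (Q.add (Q.add (Q.c 3) hN) hN))
          (Q.app (Q.wF c2) (Q.sub (Q.v 0) (Q.add (Q.c 3) hN)))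
          (Q.ite (Q.appP (Q.wP1 c3) (Q.sub (Q.v 0) (Q.add (Q.add (Q.c 3) hN) hN))) (Q.c 1)
            (Q.c 0)))))))
  have pq : ∀ x, (x.length + 2) ^ (2 * e + 4) ≤ q x := fun x =>
    (Nat.pow_le_pow_right (by omega) (by omega)).trans (hb x).2.2
  have mq : ∀ x, 3 + N x + N x + N x ≤ q x := fun x =>
    ((lg_vc (hb x).1 (Nat.le_mul_of_pos_right _ (by omega))).1).trans (pq x)
  have cM : Nq κ q β fun x _ _ => 3 + N x + N x + N x := Q.add (Q.add (Q.add (Q.c 3) hN) hN) hN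
  have cp : Fq κ q β fun x g r i => ps (ent (N x) (ρ x g r) (lk x g r) (us x g r) (s x g r)
      (t x g r)) (min i (3 + N x + N x + N x)) :=
    Q.sum (fun x g r j => ent (N x) (ρ x g (tl r)) (lk x g (tl r)) (us x g (tl r)) (s x g (tl r))
      (t x g (tl r)) j + 1) (Q.min (Q.v 0) cM) (fun x _ _ => (min_le_right _ _).trans (mq x))
      (Q.add (Q.wF ce) (Q.c 1))
  refine Q.eq (vin _ f f1 (fun y => Nat.mul_pos (by omega) (Nat.pow_pos (Nat.succ_pos _))) f2 κ q β
    (fun x g r => vc (N x) (ρ x g r) (lk x g r) (us x g r) (s x g r) (t x g r)) (fun x g r => ?_)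
    (Q.cg (Q.app cp cM) fun x g r => by rw [vc, un_len, min_self]) ?_) (Q.c 1)
  · obtain ⟨u, v⟩ := lg_vc (hb x).1 ((un_len _ _).trans_le (ps_le (fun i => min_le_left _ _)
      (3 + N x + N x + N x)) : (vc (N x) (ρ x g r) (lk x g r) (us x g r) (s x g r)
        (t x g r)).length ≤ _)
    have w : (a + 1) * lg (vc (N x) (ρ x g r) (lk x g r) (us x g r) (s x g r) (t x g r)) ^ 2 ≤
        (a + 1) * (4 * e + 9) ^ 2 * lg x ^ 2 := by
      rw [mul_assoc, ← mul_pow]
      exact Nat.mul_le_mul_left _ (Nat.pow_le_pow_left v 2)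
    refine ⟨u.trans (pq x), w.trans ((Nat.mul_le_mul_right _ (by omega)).trans (hb x).2.1),
      w.trans (le_trans ?_ (hb x).2.2)⟩
    generalize (a + 1) * (4 * e + 9) ^ 2 = A
    refine (Nat.mul_le_mul (Nat.lt_pow_self (a := x.length + 2) (by omega)).le
      (Nat.pow_le_pow_left ((lg_le x).trans (Nat.le_succ _)) 2)).trans ?_
    rw [← pow_add]
    exact Nat.pow_le_pow_right (by omega) (by omega)
  · refine Q.cg (Q.ite (i := fun _ _ _ => instDecidableAnd) (Q.and (Q.lt (Q.v 0) (Q.w (Q.app cp cM)))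
      (Q.all (P := fun x g r i => hd (r 0) + 1 ≠ ps (ent (N x) (ρ x g (tl r)) (lk x g (tl r))
        (us x g (tl r)) (s x g (tl r)) (t x g (tl r))) (min (i + 1) (3 + N x + N x + N x))) cM
        (fun x _ _ => mq x) (Q.ne (Q.add (Q.v 1) (Q.c 1))
          (Q.cg (Q.app (Q.wF (Q.wF cp)) (Q.add (Q.v 0) (Q.c 1))) fun _ _ _ => rfl)))) (Q.c 1)
      (Q.c 0)) fun x g r => ?_
    beta_reduce
    rw [vc, un_bit, min_self]
    refine if_ctx_congr (and_congr Iff.rfl (forall₂_congr fun i hi => ?_)) (fun _ => rfl) fun _ => rfl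
    rw [min_eq_left (Nat.succ_le_of_lt hi)]

end Pool.Agent.MP_1a6d78_lc.GM
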