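import Pool.Agent.MP_1a6d78_lc.PD.Spec2

/-! PROJECT GM: machines with two storeys.  Statements of the rows. -/

namespace Pool.Agent.MP_1a6d78_lc.GM

open Function ED SC

/-- A list cut or padded to length `k`, entries cut at `b`. -/
def clip (k b : ℕ) (l : List ℕ) : List ℕ := tab k fun i => min b (gt l i)

/-- A program that starts with empty stacks and leaves `f x` on top of the stack `b`. -/
def Pg (κ f : List Bool → ℕ) : Prop :=
  ∃ (p : Prog A1 C1) (b c : ℕ), ∀ (x : List Bool) (B : ℕ), 1 ≤ κ x → κ x ≤ B → x.length ≤ B →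
    ∃ s : S1, Ex x (κ x) p (fun _ => [], 0) s (pw B c) ∧ hd (s.1 b) = f x

/-- RECC: a recursion with few calls and small depth is a function of the plain calculus. -/
def RecCS : Prop :=
  ∀ (κ0 q β D : List Bool → ℕ) (F : List Bool → Orc → List ℕ → ℕ) (e : ℕ),
    Nq κ0 q β (fun x g ρ => F x g (ρ 0)) → (∀ x g l, F x g l ≤ β x) → (∀ x, 1 ≤ κ0 x) →
    (∀ x, β x ≤ (x.length + 2) ^ e ∧ q x ≤ (x.length + 2) ^ e ∧
      (q x + 2) ^ D x ≤ (x.length + 2) ^ e) →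
    ∃ E : ℕ, ∀ κ : List Bool → ℕ, (∀ x, E * (κ0 x + 1) * (D x + 1) ≤ κ x) →
      (Cn κ fun x _ => D x) → (Cn κ fun x _ => κ0 x) → (Cn κ fun x _ => β x) →
        Cn κ fun x ρ => rc (F x) (D x) (clip (κ0 x) (β x) (ρ 0))

/-- SUBO: the oracle is replaced by a subroutine. -/
def SubOS : Prop :=
  ∀ (κ q β : List Bool → ℕ) (G : List Bool → List ℕ → ℕ) (A : List Bool → Orc → ℕ) (e : ℕ),
    Nq κ q β (fun x g _ => A x g) → (Cn κ fun x ρ => G x (ρ 0)) → (∀ x l, G x l ≤ β x) →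
    (∀ x, β x ≤ (x.length + 2) ^ e ∧ q x ≤ (x.length + 2) ^ e) → Pg κ fun x => A x (G x)

/-- MACHW: from a program to a machine. -/
def MachWS : Prop :=
  ∀ κ f : List Bool → ℕ, Pg κ f → ∃ (M : TM) (c : ℕ),
    ∀ (x : List Bool) (B : ℕ), 1 ≤ κ x → κ x ≤ B → x.length ≤ B →
      M.out (M.run x (pw B c)).q = some (f x != 0) ∧
        ∀ t i, (M.run x t).head i ≤ (κ x + 1) * (c * Nat.log 2 (B + 2) + c)

/-- VIN: a program runs on a virtual input. -/
def VinS : Prop :=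
  ∀ κ1 f : List Bool → ℕ, Pg κ1 f → (∀ y, 1 ≤ κ1 y) → (∀ y, f y ≤ 1) →
    ∀ (κ q β : List Bool → ℕ) (y : List Bool → Orc → Env → List Bool),
      (∀ x g ρ, (y x g ρ).length ≤ q x ∧ κ1 (y x g ρ) ≤ κ x ∧ κ1 (y x g ρ) ≤ q x) →
      Nq κ q β (fun x g ρ => (y x g ρ).length) →
      Fq κ q β (fun x g ρ p => bit (y x g ρ) p) → Nq κ q β fun x g ρ => f (y x g ρ)

end Pool.Agent.MP_1a6d78_lc.GM
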