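import Pool.Agent.MP_1a6d78_lc.GN.Defs

/-! PROJECT GM: histories that agree up to a round. -/

namespace Pool.Agent.MP_1a6d78_lc.GM

open Classical ED PR GN PL

/-- The histories agree up to the map `L`. -/
structure Agr (H H' : Hs) (L : ℕ) : Prop where
  n : H.n = H'.n
  C : H.C = H'.C
  σ : ∀ k ≤ L, H.σ k = H'.σ k
  A : ∀ k ≤ L, H.A k = H'.A k
  T : ∀ k < L, H.T k = H'.T k

namespace Agr

variable {H H' : Hs} {L k s t : ℕ} (h : Agr H H' L)
include h

theorem symm : Agr H' H L :=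
  ⟨h.n.symm, h.C.symm, fun k u => (h.σ k u).symm, fun k u => (h.A k u).symm,
    fun k u => (h.T k u).symm⟩

theorem mono (u : k ≤ L) : Agr H H' k :=
  ⟨h.n, h.C, fun i v => h.σ i (v.trans u), fun i v => h.A i (v.trans u),
    fun i v => h.T i (v.trans_le u)⟩

theorem Co (u : k ≤ L) : H.Co k = H'.Co k := funext fun c => propext <| by
  rw [Hs.Co, Hs.Co, h.A k u]
  refine and_congr_right fun _ => forall₂_congr fun j v => ?_
  rw [Hs.pos, Hs.pos, h.n, h.C, h.σ j (by omega), h.A j (by omega)]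

theorem D (u : k ≤ L) : H.D k = H'.D k := funext fun c => propext <|
  exists_congr fun j => and_congr_right fun v => by
    rw [h.Co (k := j) (by omega), h.A (j + 1) (by omega), h.T j (by omega)]

theorem Y (u : k ≤ L) : H.Y k = H'.Y k := funext fun c => propext <|
  exists_congr fun j => and_congr_right fun v => by
    rw [h.Co (k := j) (by omega), h.T j (by omega)]

theorem S (u : k ≤ L) : H.S k = H'.S k := funext fun c => by
  rw [Hs.S, Hs.S, Hs.G, Hs.G, h.A 0 L.zero_le, h.D u, h.Co u, h.Y u]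

theorem Yp (u : k ≤ L) : H.Yp k = H'.Yp k := by
  funext P b x
  rw [Hs.Yp, Hs.Yp, h.n, h.C, h.σ 0 L.zero_le, h.S u]

theorem Free (u : k ≤ L) : H.Free k = H'.Free k := by
  funext P b z
  rw [Hs.Free, Hs.Free, h.n, h.Yp u, h.Co u, h.Y u]

theorem ok (o : H.Ok L) : H'.Ok L where
  lv := by rw [← h.n, ← h.σ 0 L.zero_le, ← h.A 0 L.zero_le]; exact o.lv
  op k u := by
    rw [← h.n, ← h.σ k u.le, ← h.σ _ u, ← h.A k u.le, ← h.A _ u, ← h.T k u]; exact o.op k u
  hc := by rw [← h.n, ← h.σ 0 L.zero_le, ← h.A 0 L.zero_le, ← h.C]; exact o.hc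

theorem fre (o : H.Fre L s t) : H'.Fre L s t := fun k u => by
  rw [← h.Co u.le, ← h.A _ u, ← h.T k u, ← h.Free u.le]
  exact o k u

end Agr

theorem ok_succ {H : Hs} {L : ℕ} (o : H.Ok L)
    (h : Op H.n (H.σ L) (H.σ (L + 1)) (H.A L) (H.A (L + 1)) (H.T L)) : H.Ok (L + 1) :=
  ⟨o.lv, fun k u => (Nat.lt_succ_iff_lt_or_eq.1 u).elim (o.op k) fun e => e ▸ h, o.hc⟩

theorem fre_succ {H : Hs} {L s t : ℕ} (o : H.Fre L s t)
    (h : ∀ c, H.Co L c → ¬H.A (L + 1) c → ¬H.T L c →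
      ∃ P : ℕ → Prop, P c ∧ (H.Free L P 1 t ∨ H.Free L P 0 s)) : H.Fre (L + 1) s t :=
  fun k u => (Nat.lt_succ_iff_lt_or_eq.1 u).elim (o k) fun e => e ▸ h

end Pool.Agent.MP_1a6d78_lc.GM
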