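import Pool.Agent.MP_1a6d78_lc.GM.Spec

/-! PROJECT GM: levelled elimination with stored seeds and tables; the main program sees all levels. -/

namespace Pool.Agent.MP_1a6d78_lc.GM

open Function ED SC SC.El

/-- The level `j` of a history. -/
def lev (H : Orc) (j : ℕ) : Orc := fun l => H (j :: l)

/-- The history that has only the level `o`. -/
def his0 (o : Orc) : Orc := fun l => o l.tail

/-- The history `H` up to the level `j`, then `o`. -/
def ext (j : ℕ) (H o : Orc) : Orc := fun l => if gt l 0 ≤ j then H l else o l.tail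

theorem lev_his0 (o : Orc) (j : ℕ) : lev (his0 o) j = o := rfl

theorem lev_ext_le {i j : ℕ} (h : i ≤ j) (H o : Orc) : lev (ext j H o) i = lev H i :=
  funext fun _ => if_pos h

theorem lev_ext_lt {i j : ℕ} (h : j < i) (H o : Orc) : lev (ext j H o) i = o :=
  funext fun _ => if_neg (not_le.2 h)

namespace Et

def pos (r k j : ℕ) : ℕ := r + 1 + j * (k + 1)

def tbl (k : ℕ) (L : List ℕ) (p : ℕ) : List ℕ := tab k fun e => gt L (p + 1 + e)

def hc (r κ β : ℕ) (l S : List ℕ) : List ℕ :=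
  tab κ fun i => min β (if i = 0 then min (gt l 0) (gt S 0) else if i ≤ r then gt l i else gt S i)

def put (k κ β : ℕ) (S : List ℕ) (p w : ℕ) (T : List ℕ) : List ℕ :=
  tab κ fun e => min β (if e = p then w else if p < e ∧ e ≤ p + k then gt T (e - p - 1) else gt S e)

variable (r k κ β Q : ℕ) (base : List ℕ → ℕ) (step : ℕ → ℕ → List ℕ → Orc → List ℕ → ℕ)
  (tb : ℕ → ℕ → Orc → List ℕ) (Φ : ℕ → Orc → ℕ)

def body (g : Orc) (L : List ℕ) : ℕ :=
  min β (if gt L 0 = 0 then base (arg r β L) else step (gt L (pos r k (gt L 0 - 1))) (gt L 0 - 1)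
    (tbl k L (pos r k (gt L 0 - 1))) (fun l => g (cl r κ β l (upd κ L 0 (gt L 0 - 1)))) (arg r β L))

def lv (S : List ℕ) : ℕ → Orc
  | 0 => nrm r β base
  | j + 1 => nrm r β (step (gt S (pos r k j)) j (tbl k S (pos r k j)) (lv S j))

def cand (g : Orc) (j : ℕ) (S : List ℕ) (w : ℕ) : List ℕ :=
  put k κ β S (pos r k j) w (tb j w fun l => g (hc r κ β l (upd κ S 0 j)))

noncomputable def nxt (g : Orc) (j : ℕ) (S : List ℕ) : List ℕ :=
  cand r k κ β tb g j S (PR.amin Q fun w =>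
    Φ (j + 1) fun l => g (cl r κ β l (upd κ (cand r k κ β tb g j S w) 0 (j + 1))))

variable {r k κ β Q base step tb Φ}

theorem pos_succ (r k j : ℕ) : pos r k (j + 1) = pos r k j + k + 1 := by unfold pos; ring

theorem pos_mono {i j : ℕ} (h : i ≤ j) : pos r k i ≤ pos r k j :=
  Nat.add_le_add_left (Nat.mul_le_mul_right _ h) _

theorem le_pos (r k j : ℕ) : r + 1 ≤ pos r k j := Nat.le_add_right _ _

theorem tab_congr {n : ℕ} {f f' : ℕ → ℕ} (h : ∀ m < n, f m = f' m) : tab n f = tab n f' :=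
  List.map_congr_left fun i hi => h i (List.mem_range.1 hi)

theorem gt_le {n b : ℕ} (f : ℕ → ℕ) (e : ℕ) : gt (tab n fun i => min b (f i)) e ≤ b := by
  rcases lt_or_ge e n with h | h
  · rw [gt_tab _ h]; exact min_le_left _ _
  · rw [gt_tab' _ h]; exact Nat.zero_le _

theorem clip_tab (n b : ℕ) (f : ℕ → ℕ) :
    clip n b (tab n fun i => min b (f i)) = tab n fun i => min b (f i) :=
  tab_congr fun m h => by rw [gt_tab _ h, ← min_assoc, min_self]

theorem lv_congr {S S' : List ℕ} : ∀ j, (∀ e, r + 1 ≤ e → e < pos r k j → gt S e = gt S' e) →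
    lv r k β base step S j = lv r k β base step S' j
  | 0, _ => rfl
  | j + 1, h => by
    have a := pos_succ r k j
    have b := le_pos r k j
    rw [lv, lv, h _ b (by omega), lv_congr j fun e h1 h2 => h e h1 (by omega), tbl, tbl,
      tab_congr fun m hm => h _ (by omega) (by omega)]

theorem rc_lv {S : List ℕ} (hS : ∀ e, gt S e ≤ β) : ∀ j d T, j < d → j ≤ β → pos r k j ≤ κ →
    gt T 0 = j → (∀ e, r + 1 ≤ e → e < pos r k j → gt T e = gt S e) →
      (fun l => rc (body r k κ β base step) d (cl r κ β l T)) = lv r k β base step S j := by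
  intro j
  induction j with
  | zero =>
    intro d T hd hβ hκ h0 _
    have := le_pos r k 0
    obtain ⟨d, rfl⟩ := Nat.exists_eq_add_of_lt hd
    funext l
    have e0 : gt (cl r κ β l T) 0 = 0 := by rw [cl, gt_tab _ (by omega)]; simp [h0]
    have e1 : arg r β (cl r κ β l T) = tab r fun i => min β (gt l i) :=
      tab_congr fun i hi => by
        rw [cl, gt_tab _ (by omega), if_pos (by omega)]
        simp
    rw [rc, body, e0, if_pos rfl, e1]
    rfl
  | succ j ih =>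
    intro d T hd hβ hκ h0 hs
    have a := pos_succ r k j
    have b := le_pos r k j
    obtain ⟨d, rfl⟩ : ∃ e, d = e + 1 := ⟨d - 1, by omega⟩
    funext l
    have e0 : gt (cl r κ β l T) 0 = j + 1 := by
      rw [cl, gt_tab _ (by omega), if_neg (by omega), h0, min_eq_right hβ]
    have e1 : arg r β (cl r κ β l T) = tab r fun i => min β (gt l i) :=
      tab_congr fun i hi => by
        rw [cl, gt_tab _ (by omega), if_pos (by omega)]
        simp
    have e2 : ∀ e, r + 1 ≤ e → e < pos r k (j + 1) → gt (cl r κ β l T) e = gt S e :=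
      fun e h1 h2 => by
        rw [cl, gt_tab _ (by omega), if_neg (by omega), hs e h1 h2, min_eq_right (hS e)]
    rw [rc, body, e0, if_neg j.succ_ne_zero, e1, Nat.add_sub_cancel, e2 _ b (by omega), tbl,
      tab_congr fun m hm => e2 _ (by omega) (by omega),
      ih d _ (by omega) (by omega) (by omega) (by rw [gt_upd _ _ _ (by omega), if_pos rfl])
        fun e h1 h2 => by rw [gt_upd _ _ _ (by omega), if_neg (by omega), e2 e h1 (by omega)]]
    rfl

/-- The history of the seeds `S`. -/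
def hs (r k β : ℕ) (base : List ℕ → ℕ) (step : ℕ → ℕ → List ℕ → Orc → List ℕ → ℕ) (S : List ℕ)
    (j : ℕ) : Orc := fun l => lv r k β base step S (min (gt l 0) j) l.tail

theorem gt_tail (l : List ℕ) (i : ℕ) : gt l.tail i = gt l (i + 1) := by
  cases l <;> simp [gt]

theorem rc_hs {S : List ℕ} (hS : ∀ e, gt S e ≤ β) {j d : ℕ} (hd : j < d) (hβ : j ≤ β)
    (hκ : pos r k j ≤ κ) :
    (fun l => rc (body r k κ β base step) d (hc r κ β l (upd κ S 0 j))) =
      hs r k β base step S j := by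
  funext l
  have b := le_pos r k j
  have m : min (gt l 0) j ≤ j := min_le_right _ _
  have := congrFun (rc_lv (base := base) (step := step) hS (min (gt l 0) j) d
    (upd κ S 0 (min (gt l 0) j)) (by omega) (by omega) ((pos_mono m).trans hκ)
    (by rw [gt_upd _ _ _ (by omega), if_pos rfl]) fun e h1 h2 => by
      have := pos_mono (r := r) (k := k) m
      rw [gt_upd _ _ _ (by omega), if_neg (by omega)]) l.tail
  rw [hs, ← this]
  congr 1
  refine tab_congr fun i hi => congrArg _ ?_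
  rw [gt_upd _ _ _ (show 0 < κ by omega), gt_upd _ _ _ hi, gt_upd _ _ _ hi, if_pos rfl]
  rcases Nat.eq_zero_or_pos i with rfl | h
  · simp
  · rw [if_neg h.ne', if_neg h.ne', if_neg h.ne', gt_tail, show i - 1 + 1 = i by omega]
    by_cases u : i ≤ r
    · rw [if_pos u, if_pos ⟨h, u⟩]
    · rw [if_neg u, if_neg fun v => u v.2]

theorem lev_hs (S : List ℕ) (j : ℕ) : lev (hs r k β base step S j) j = lv r k β base step S j := by
  funext l
  simp [lev, hs, gt]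

theorem put_lv {S : List ℕ} (hS : ∀ e, gt S e ≤ β) {j w : ℕ} (hκ : pos r k (j + 1) ≤ κ) (hw : w ≤ β)
    (T : List ℕ) : (∀ i ≤ j, lv r k β base step (put k κ β S (pos r k j) w T) i =
      lv r k β base step S i) ∧ lv r k β base step (put k κ β S (pos r k j) w T) (j + 1) =
        nrm r β (step w j (clip k β T) (lv r k β base step S j)) := by
  have a := pos_succ r k j
  have u : ∀ i ≤ j, lv r k β base step (put k κ β S (pos r k j) w T) i = lv r k β base step S i :=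
    fun i hi => lv_congr i fun e h1 h2 => by
      have := pos_mono (r := r) (k := k) hi
      rw [put, gt_tab _ (by omega), if_neg (by omega), if_neg (by omega), min_eq_right (hS e)]
  refine ⟨u, ?_⟩
  rw [lv, u j le_rfl, tbl, clip, tab_congr (f' := fun i => min β (gt T i)) fun m hm => by
    rw [put, gt_tab _ (by omega), if_neg (by omega), if_pos (by omega),
      show pos r k j + 1 + m - pos r k j - 1 = m by omega]]
  rw [put, gt_tab _ (by omega), if_pos rfl, min_eq_right hw]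

theorem put_hs {S : List ℕ} (hS : ∀ e, gt S e ≤ β) {j w : ℕ} (hκ : pos r k (j + 1) ≤ κ) (hw : w ≤ β)
    (T : List ℕ) : hs r k β base step (put k κ β S (pos r k j) w T) (j + 1) =
      ext j (hs r k β base step S j)
        (nrm r β (step w j (clip k β T) (lev (hs r k β base step S j) j))) := by
  obtain ⟨u, v⟩ := put_lv (base := base) (step := step) hS hκ hw T
  funext l
  rw [lev_hs, ext, hs, hs]
  split_ifs with h
  · rw [min_eq_left h, min_eq_left (by omega), u _ h]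
  · rw [min_eq_right (by omega), v]

theorem run {K J D : ℕ} {Good : ℕ → Orc → Prop} (hJ : J < D) (hβ : J ≤ β) (hκ : pos r k J ≤ κ)
    (hQ : Q ≤ β) (h0 : Good 0 (his0 (nrm r β base)))
    (h1 : ∀ j < J, ∀ H w, w ≤ Q → Good j H →
      Good (j + 1) (ext j H (nrm r β (step w j (clip k β (tb j w H)) (lev H j)))))
    (hp : ∀ j < J, ∀ H, Good j H → ∃ w < Q,
      Φ (j + 1) (nrm r β (step w j (clip k β (tb j w H)) (lev H j))) * K ≤ Φ j (lev H j) * (K - 1))
    (S : ℕ → List ℕ)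
    (eS : S = itr (nxt r k κ β Q tb Φ (rc (body r k κ β base step) D)) (tab κ fun _ => 0)) :
    ∀ j ≤ J, (∀ e, gt (S j) e ≤ β) ∧ Good j (hs r k β base step (S j) j) ∧
      ∀ i, j = i + 1 → Φ j (lv r k β base step (S j) j) * K ≤
        Φ i (lv r k β base step (S i) i) * (K - 1) := by
  intro j
  induction j with
  | zero =>
    intro _
    refine ⟨fun e => ?_, ?_, fun _ h => absurd h (by omega)⟩
    · rw [eS, itr]
      simpa using gt_le (n := κ) (b := β) (fun _ => 0) e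
    · rwa [show hs r k β base step (S 0) 0 = his0 (nrm r β base) from
        funext fun l => by simp [hs, his0, lv]]
  | succ j ih =>
    intro hj
    obtain ⟨i1, i2, -⟩ := ih (by omega)
    have p1 : pos r k (j + 1) ≤ κ := (pos_mono hj).trans hκ
    have p2 := le_pos r k (j + 1)
    have ec : ∀ w, cand r k κ β tb (rc (body r k κ β base step) D) j (S j) w =
        put k κ β (S j) (pos r k j) w (tb j w (hs r k β base step (S j) j)) := fun w => by
      rw [cand, rc_hs i1 (by omega) (by omega) ((pos_mono j.le_succ).trans p1)]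
    have e : ∀ T : List ℕ, (∀ e, gt T e ≤ β) → (fun l => rc (body r k κ β base step) D
        (cl r κ β l (upd κ T 0 (j + 1)))) = lv r k β base step T (j + 1) := fun T hT =>
      rc_lv hT _ D _ (by omega) (by omega) p1 (by rw [gt_upd _ _ _ (by omega), if_pos rfl])
        fun e h1 h2 => by rw [gt_upd _ _ _ (by omega), if_neg (by omega)]
    obtain ⟨q, hq, kq⟩ := hp j hj _ i2
    obtain ⟨m1, m2⟩ := PR.amin_spec (fun w => Φ (j + 1) fun l => rc (body r k κ β base step) D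
      (cl r κ β l (upd κ (cand r k κ β tb (rc (body r k κ β base step) D) j (S j) w) 0 (j + 1))))
      (show 0 < Q by omega)
    have eN : S (j + 1) = nxt r k κ β Q tb Φ (rc (body r k κ β base step) D) j (S j) := by
      rw [eS]; rfl
    rw [eN, nxt]
    generalize PR.amin Q _ = w at m1 m2 ⊢
    refine ⟨by rw [ec]; exact gt_le _, ?_, fun i hi => ?_⟩
    · rw [ec, put_hs i1 p1 (m1.le.trans hQ)]
      exact h1 j hj _ _ m1.le i2
    · obtain rfl : j = i := Nat.succ_injective hi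
      have := m2 q hq
      simp only [ec] at this ⊢
      rw [e (put _ _ _ _ _ _ _) (gt_le _), e (put _ _ _ _ _ _ _) (gt_le _),
        (put_lv i1 p1 (hq.le.trans hQ) _).2] at this
      rw [lev_hs] at kq
      exact (Nat.mul_le_mul_right _ this).trans kq

variable {κ' κ0 q β' k' : List Bool → ℕ}

theorem tab_le {n b : ℕ} (f : ℕ → ℕ) : ∀ a ∈ tab n fun i => min b (f i), a ≤ b := fun a ha => by
  obtain ⟨e, _, rfl⟩ := List.mem_map.1 ha
  exact min_le_left _ _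

theorem clC (r : ℕ) (h : ∀ x, κ0 x ≤ κ' x) (hκ : Cn κ' fun x _ => κ0 x)
    (hβ : Cn κ' fun x _ => β' x) : Cm κ' fun x ρ => cl r (κ0 x) (β' x) (ρ 0) (ρ 1) :=
  (kitOne κ').tab (fun x ρ i => min (β' x) (if 1 ≤ i ∧ i ≤ r then gt (ρ 0) (i - 1) else gt (ρ 1) i))
    h hκ (PR.K.min hβ (PR.K.ite (PR.K.and (PR.K.le (PR.K.c 1) (PR.K.v 0))
      (PR.K.le (PR.K.v 0) (PR.K.c r))) (PR.K.gt (PR.K.vL 1) (PR.K.sub (PR.K.v 0) (PR.K.c 1)))
      (PR.K.gt (PR.K.vL 2) (PR.K.v 0))))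

theorem hcC (r : ℕ) (h : ∀ x, κ0 x ≤ κ' x) (hκ : Cn κ' fun x _ => κ0 x)
    (hβ : Cn κ' fun x _ => β' x) : Cm κ' fun x ρ => hc r (κ0 x) (β' x) (ρ 0) (ρ 1) :=
  (kitOne κ').tab (fun x ρ i => min (β' x) (if i = 0 then min (gt (ρ 0) 0) (gt (ρ 1) 0)
      else if i ≤ r then gt (ρ 0) i else gt (ρ 1) i))
    h hκ (PR.K.min hβ (PR.K.ite (PR.K.eq (PR.K.v 0) (PR.K.c 0))
      (PR.K.min (PR.K.gt (PR.K.vL 1) (PR.K.c 0)) (PR.K.gt (PR.K.vL 2) (PR.K.c 0)))
      (PR.K.ite (PR.K.le (PR.K.v 0) (PR.K.c r)) (PR.K.gt (PR.K.vL 1) (PR.K.v 0))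
        (PR.K.gt (PR.K.vL 2) (PR.K.v 0)))))

theorem updC (h : ∀ x, κ0 x ≤ κ' x) (hκ : Cn κ' fun x _ => κ0 x)
    {S : List Bool → Orc → Env → List ℕ}
    {i v : List Bool → Orc → Env → ℕ} (hS : Lq κ' q β' S) (hi : Nq κ' q β' i) (hv : Nq κ' q β' v) :
    Lq κ' q β' fun x g ρ => upd (κ0 x) (S x g ρ) (i x g ρ) (v x g ρ) :=
  M.bind _ _ hv (M.bind _ _ (Q.wL hi) (M.bind _ _ (Q.wL (Q.wL hS)) (M.lift _ ((kitOne κ').tab
    (fun _ ρ e => if e = hd (ρ 1) then hd (ρ 2) else gt (ρ 0) e) h hκ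
    (PR.K.ite (PR.K.eq (PR.K.v 0) (PR.K.v 2)) (PR.K.v 3) (PR.K.gt (PR.K.vL 1) (PR.K.v 0)))))))

theorem putC (h : ∀ x, κ0 x ≤ κ' x) (hκ : Cn κ' fun x _ => κ0 x) (hk : Cn κ' fun x _ => k' x)
    (hβ : Cn κ' fun x _ => β' x) {S T : List Bool → Orc → Env → List ℕ}
    {p w : List Bool → Orc → Env → ℕ} (hS : Lq κ' q β' S) (hp : Nq κ' q β' p) (hw : Nq κ' q β' w)
    (hT : Lq κ' q β' T) :
    Lq κ' q β' fun x g ρ => put (k' x) (κ0 x) (β' x) (S x g ρ) (p x g ρ) (w x g ρ) (T x g ρ) :=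
  M.bind _ _ hw (M.bind _ _ (Q.wL hp) (M.bind _ _ (Q.wL (Q.wL hS))
    (M.bind _ _ (Q.wL (Q.wL (Q.wL hT))) (M.lift _ ((kitOne κ').tab
    (fun x ρ e => min (β' x) (if e = hd (ρ 2) then hd (ρ 3) else
      if hd (ρ 2) < e ∧ e ≤ hd (ρ 2) + k' x then gt (ρ 0) (e - hd (ρ 2) - 1) else gt (ρ 1) e)) h hκ
    (PR.K.min hβ (PR.K.ite (PR.K.eq (PR.K.v 0) (PR.K.v 3)) (PR.K.v 4)
      (PR.K.ite (PR.K.and (PR.K.lt (PR.K.v 3) (PR.K.v 0))
        (PR.K.le (PR.K.v 0) (PR.K.add (PR.K.v 3) hk)))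
        (PR.K.gt (PR.K.vL 1) (PR.K.sub (PR.K.sub (PR.K.v 0) (PR.K.v 3)) (PR.K.c 1)))
        (PR.K.gt (PR.K.vL 2) (PR.K.v 0))))))))))

theorem posC (r : ℕ) (hk : Cn κ' fun x _ => k' x) {j : List Bool → Orc → Env → ℕ}
    (hj : Nq κ' q β' j) : Nq κ' q β' fun x g ρ => pos r (k' x) (j x g ρ) :=
  Q.add (Q.c (r + 1)) (Q.mul hj (Q.add (Q.lift hk) (Q.c 1)))

end Et

open Et in
/-- Level `j + 1` is `step x w j T g` for the seed `w`, the table `T = tb x j w H` read from the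
history `H` and the oracle `g` of level `j`; the main program `fin` sees the whole history. -/
theorem elimT (hR : RecCS) (hO : SubOS) (r m b b0 K : ℕ) (hK : 1 ≤ K) (hb : 1 ≤ b)
    (hJ : K * (2 * b0 + 1) ≤ 2 ^ (b - 1))
    (β : List Bool → ℕ) (hβ : β = fun x => (x.length + 2) ^ b) (k : List Bool → ℕ)
    (base : List Bool → List ℕ → ℕ) (step : List Bool → ℕ → ℕ → List ℕ → Orc → List ℕ → ℕ)
    (tb : List Bool → ℕ → ℕ → Orc → List ℕ) (Φ : List Bool → ℕ → Orc → ℕ)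
    (fin : List Bool → Orc → ℕ) (W : List Bool → ℕ) (Good : List Bool → ℕ → Orc → Prop)
    (Pm : List Bool → Prop)
    (hC : ∀ κ : List Bool → ℕ, (∀ x, r ≤ κ x) → (Cn κ fun x _ => k x) ∧
      (Cn κ fun x ρ => base x (ρ 0)) ∧
      (Nq κ (fun _ => m) β fun x g ρ => step x (hd (ρ 0)) (hd (ρ 1)) (ρ 2) g (ρ 3)) ∧
      (Nq κ β β fun x g ρ => Φ x (hd (ρ 0)) g) ∧ Cn κ fun x _ => W x)
    (hQ : ∀ x, W x ≤ β x) (h0 : ∀ x, Pm x → Good x 0 (his0 (nrm r (β x) (base x))))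
    (hΦ : ∀ x, Pm x → Φ x 0 (nrm r (β x) (base x)) ≤ (x.length + 2) ^ b0)
    (hs : ∀ x, Pm x → ∀ j < K * (2 * b0 + 1) * lg x, ∀ H w, w ≤ W x → Good x j H →
      Good x (j + 1) (ext j H (nrm r (β x) (step x w j (clip (k x) (β x) (tb x j w H)) (lev H j)))))
    (hp : ∀ x, Pm x → ∀ j < K * (2 * b0 + 1) * lg x, ∀ H, Good x j H → ∃ w < W x,
      Φ x (j + 1) (nrm r (β x) (step x w j (clip (k x) (β x) (tb x j w H)) (lev H j))) * K ≤
        Φ x j (lev H j) * (K - 1)) :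
    ∃ E : ℕ, ∀ κ : List Bool → ℕ, (∀ x, E * (k x + 1) * lg x ^ 2 ≤ κ x) →
      (Lq κ β β fun x g ρ => tb x (hd (ρ 0)) (hd (ρ 1)) g) → (Nq κ β β fun x g _ => fin x g) →
      ∃ f, Pg κ f ∧ (∀ x, ∃ H, f x = fin x H) ∧ ∀ x, Pm x → ∃ H,
        Good x (K * (2 * b0 + 1) * lg x) H ∧
        Φ x (K * (2 * b0 + 1) * lg x) (lev H (K * (2 * b0 + 1) * lg x)) = 0 ∧ f x = fin x H := by
  obtain ⟨J, eJ⟩ : ∃ J, J = K * (2 * b0 + 1) := ⟨_, rfl⟩
  rw [← eJ] at hJ hs hp ⊢
  obtain ⟨κ0, e0⟩ : ∃ κ0 : List Bool → ℕ, κ0 = fun x => (J + r + 1) * (k x + 1) * lg x := ⟨_, rfl⟩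
  have l1 : ∀ x, 1 ≤ lg x := fun _ => Nat.succ_pos _
  have k1 : ∀ x, pos r (k x) (J * lg x) ≤ κ0 x ∧ k x ≤ κ0 x := fun x => by
    have := l1 x
    have a : (r + 1) * 1 * 1 ≤ (r + 1) * (k x + 1) * lg x := by gcongr; omega
    have c : 1 * (k x + 1) * 1 ≤ (J + r + 1) * (k x + 1) * lg x := by gcongr; omega
    rw [e0, pos]
    constructor <;> nlinarith
  have k2 : ∀ x, r + 1 ≤ κ0 x := fun x => (le_pos _ _ _).trans (k1 x).1
  have b1 : ∀ x, J * lg x ≤ β x := fun x => by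
    obtain ⟨b, rfl⟩ : ∃ e, b = e + 1 := ⟨b - 1, by omega⟩
    rw [hβ]
    exact Nat.mul_le_mul (hJ.trans (Nat.pow_le_pow_left (by omega) _))
      ((lg_le x).trans (Nat.le_succ _))
  have cβ : ∀ κ, Cn κ fun x _ => β x := fun κ =>
    PR.K.cg (PR.K.pow b (PR.K.add (kitOne κ).len (PR.K.c 2))) fun x _ => by rw [hβ]
  have cκ : ∀ κ, (Cn κ fun x _ => k x) → Cn κ fun x _ => κ0 x := fun κ h =>
    PR.K.cg (PR.K.mul (PR.K.mul (PR.K.c _) (PR.K.add h (PR.K.c 1))) (lgC κ)) fun x _ => by rw [e0]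
  obtain ⟨c0, c1, c2, -, -⟩ := hC κ0 fun x => by have := k2 x; omega
  have ca : Cm κ0 fun x ρ => arg r (β x) (ρ 0) :=
    (kitOne κ0).tab (fun x ρ i => min (β x) (gt (ρ 0) (i + 1))) (fun x => by have := k2 x; omega)
      (PR.K.c r) (PR.K.min (cβ _) (PR.K.gt (PR.K.vL 1) (PR.K.add (PR.K.v 0) (PR.K.c 1))))
  have ct : Cm κ0 fun x ρ => tbl (k x) (ρ 2) (pos r (k x) (hd (ρ 0))) :=
    (kitOne κ0).tab (fun x ρ e => gt (ρ 2) (pos r (k x) (hd (ρ 0)) + 1 + e)) (fun x => (k1 x).2) c0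
      (PR.K.gt (PR.K.vL 3) (PR.K.add (PR.K.add (PR.K.add (PR.K.c (r + 1))
        (PR.K.mul (PR.K.v 1) (PR.K.add c0 (PR.K.c 1)))) (PR.K.c 1)) (PR.K.v 0)))
  have g0 : ∀ i, Nq κ0 (fun _ => m) β fun _ _ ρ => gt (ρ i) 0 := fun i => Q.gt (Q.vL i) (Q.c 0)
  have hF : Nq κ0 (fun _ => m) β fun x g ρ =>
      body r (k x) (κ0 x) (β x) (base x) (step x) g (ρ 0) :=
    Q.min (Q.lift (cβ _)) (Q.ite (Q.eq (g0 0) (Q.c 0)) (Q.lift ((kitA κ0).bind _ _ ca c1))
      (M.bind _ _ (Q.liftL ca) (M.bind _ _ (Q.sub (g0 1) (Q.c 1)) (M.bind _ _ (Q.liftL ct)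
        (M.bind _ _ (Q.v 1) (M.bind _ _ (Q.gt (Q.vL 4) (posC r c0 (Q.v 0)))
          (M.bind _ _ (updC (fun _ => le_rfl) (cκ _ c0) (Q.vL 5) (Q.c 0) (Q.v 1))
            (osub (fun x l S => cl r (κ0 x) (β x) l S) (clC r (fun _ => le_rfl) (cκ _ c0) (cβ _))
              (fun _ _ _ => cl_le _ _ _ _ _)
              (M.ren _ (fun i => if i = 3 then 4 else i) c2)))))))))
  have pe : ∀ x : List Bool, β x ≤ (x.length + 2) ^ (b + m + 2 * ((m + 2) * (J + 1))) ∧
      m ≤ (x.length + 2) ^ (b + m + 2 * ((m + 2) * (J + 1))) ∧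
      (m + 2) ^ ((J + 1) * lg x) ≤ (x.length + 2) ^ (b + m + 2 * ((m + 2) * (J + 1))) := fun x => by
    refine ⟨by rw [hβ]; exact Nat.pow_le_pow_right (by omega) (by omega),
      (const_le_pw x.length m).trans (pw_mono le_rfl (by omega)), ?_⟩
    calc _ ≤ (2 ^ (m + 2)) ^ ((J + 1) * lg x) := Nat.pow_le_pow_left Nat.lt_two_pow_self.le _
      _ = (2 ^ lg x) ^ ((m + 2) * (J + 1)) := by rw [← pow_mul, ← pow_mul]; congr 1; ring
      _ ≤ ((x.length + 2) ^ 2) ^ ((m + 2) * (J + 1)) := Nat.pow_le_pow_left (two_lg x) _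
      _ ≤ _ := by rw [← pow_mul]; exact Nat.pow_le_pow_right (by omega) (by omega)
  obtain ⟨E, hE⟩ := hR κ0 (fun _ => m) β (fun x => (J + 1) * lg x)
    (fun x => body r (k x) (κ0 x) (β x) (base x) (step x)) _ hF (fun _ _ _ => min_le_left _ _)
    (fun x => by have := k2 x; omega) pe
  refine ⟨(E + 1) * (J + r + 2) * (J + 2), fun κ hκ c6 c4 => ?_⟩
  have k3 : ∀ x, (E + 1) * (κ0 x + 1) * ((J + 1) * lg x + 1) ≤ κ x := fun x => by
    have := l1 x
    have a : 1 * 1 ≤ (k x + 1) * lg x := by gcongr; omega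
    refine le_trans ?_ (hκ x)
    calc _ ≤ (E + 1) * ((J + r + 2) * ((k x + 1) * lg x)) * ((J + 2) * lg x) := by
          rw [e0]
          gcongr <;> nlinarith
      _ = _ := by ring
  have k4 : ∀ x, κ0 x ≤ κ x := fun x => le_trans (by
    have : 1 * (κ0 x + 1) * 1 ≤ (E + 1) * (κ0 x + 1) * ((J + 1) * lg x + 1) := by gcongr <;> omega
    omega) (k3 x)
  obtain ⟨d0, -, -, c3, c5⟩ := hC κ fun x => by have := k2 x; have := k4 x; omega
  have cG := hE κ (fun x => le_trans (by gcongr; omega) (k3 x)) (PR.K.mul (PR.K.c _) (lgC κ))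
    (cκ _ d0) (cβ _)
  have cJ : Cn κ fun x _ => J * lg x := PR.K.mul (PR.K.c _) (lgC κ)
  have cc : ∀ {S : List Bool → Orc → Env → List ℕ} {j w : List Bool → Orc → Env → ℕ},
      Lq κ β β S → Nq κ β β j → Nq κ β β w → Lq κ β β fun x g ρ =>
        cand r (k x) (κ0 x) (β x) (tb x) g (j x g ρ) (S x g ρ) (w x g ρ) := fun hS hj hw =>
    putC k4 (cκ _ d0) d0 (cβ _) hS (posC r d0 hj) hw
      (M.bind _ _ hw (M.bind _ _ (Q.wL hj) (M.bind _ _
        (updC k4 (cκ _ d0) (Q.wL (Q.wL hS)) (Q.c 0) (Q.v 0))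
        (osub (fun x l S => hc r (κ0 x) (β x) l S) (hcC r k4 (cκ _ d0) (cβ _))
          (fun _ _ _ => tab_le _) c6))))
  have hS : Lq κ β β fun x g _ => itr (nxt r (k x) (κ0 x) (β x) (W x) (tb x) (Φ x) g)
      (tab (κ0 x) fun _ => 0) (J * lg x) :=
    Q.foldL (fun x g _ => nxt r (k x) (κ0 x) (β x) (W x) (tb x) (Φ x) g) (fun x _ _ _ => β x)
      (Q.lift cJ) (fun x _ _ => b1 x)
      (Q.liftL ((kitOne κ).tab (fun _ _ _ => 0) k4 (cκ _ d0) (PR.K.c 0)))
      (cc (Q.vL 0) (Q.v 1) (Q.amin (Q.lift c5) (fun x _ _ => hQ x)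
        (M.bind _ _ (Q.add (Q.v 2) (Q.c 1)) (M.bind _ _
          (updC k4 (cκ _ d0) (cc (Q.vL 2) (Q.v 3) (Q.v 1)) (Q.c 0) (Q.v 0))
          (osub (fun x l S => cl r (κ0 x) (β x) l S) (clC r k4 (cκ _ d0) (cβ _))
            (fun _ _ _ => cl_le _ _ _ _ _) c3))))) (Q.lift (cβ _))
      fun x g _ j S B _ hB a ha => (tab_le _ a ha).trans hB
  have hA : Nq κ β β fun x g _ => fin x fun l => g (hc r (κ0 x) (β x) l (upd (κ0 x)
      (itr (nxt r (k x) (κ0 x) (β x) (W x) (tb x) (Φ x) g) (tab (κ0 x) fun _ => 0) (J * lg x)) 0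
      (J * lg x))) :=
    M.bind _ _ (updC k4 (cκ _ d0) hS (Q.c 0) (Q.lift cJ))
      (osub (fun x l S => hc r (κ0 x) (β x) l S) (hcC r k4 (cκ _ d0) (cβ _))
        (fun _ _ _ => tab_le _) c4)
  refine ⟨_, hO κ β β (fun x l => rc (body r (k x) (κ0 x) (β x) (base x) (step x)) ((J + 1) * lg x)
    (clip (κ0 x) (β x) l)) _ _ hA cG (fun x l => Rec.rc_le (fun _ _ => min_le_left _ _) _ _)
    fun x => ⟨(pe x).1, (pe x).1⟩, fun x => ⟨_, rfl⟩, fun x hx => ?_⟩
  have eN : nxt r (k x) (κ0 x) (β x) (W x) (tb x) (Φ x) (fun l => rc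
      (body r (k x) (κ0 x) (β x) (base x) (step x)) ((J + 1) * lg x) (clip (κ0 x) (β x) l)) =
      nxt r (k x) (κ0 x) (β x) (W x) (tb x) (Φ x)
        (rc (body r (k x) (κ0 x) (β x) (base x) (step x)) ((J + 1) * lg x)) := by
    funext j S
    simp only [Et.nxt, cand, hc, cl, clip_tab]
  obtain ⟨S, eS⟩ : ∃ S, S = itr (nxt r (k x) (κ0 x) (β x) (W x) (tb x) (Φ x)
    (rc (body r (k x) (κ0 x) (β x) (base x) (step x)) ((J + 1) * lg x))) (tab (κ0 x) fun _ => 0) :=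
    ⟨_, rfl⟩
  have hD : J * lg x < (J + 1) * lg x := by have := l1 x; nlinarith
  have R := run hD (b1 x) (k1 x).1 (hQ x) (h0 x hx) (hs x hx) (hp x hx) S eS
  have H := half hK (fun j => Φ x j (lv r (k x) (β x) (base x) (step x) (S j) j))
    ((2 * b0 + 1) * lg x) fun j hj => (R (j + 1) (by rw [eJ, mul_assoc]; omega)).2.2 j rfl
  rw [← mul_assoc, ← eJ] at H
  obtain ⟨r1, r2, -⟩ := R _ le_rfl
  refine ⟨_, r2, ?_, ?_⟩
  · have u : x.length + 2 ≤ 2 ^ (2 * lg x) := by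
      have := Nat.lt_pow_succ_log_self (b := 2) (by omega) x.length
      have u2 : 2 ^ 1 ≤ 2 ^ lg x := Nat.pow_le_pow_right (by omega) (l1 x)
      rw [two_mul, pow_add]
      unfold lg at u2 ⊢
      rw [Nat.succ_eq_add_one] at this
      nlinarith
    have w : (x.length + 2) ^ b0 < 2 ^ ((2 * b0 + 1) * lg x) :=
      (Nat.pow_le_pow_left u b0).trans_lt (by
        rw [← pow_mul]
        exact Nat.pow_lt_pow_right (by omega) (by have := l1 x; nlinarith))
    rw [lev_hs]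
    by_contra h
    exact absurd ((Nat.le_mul_of_pos_left _ (Nat.pos_of_ne_zero h)).trans (H.trans (hΦ x hx)))
      w.not_ge
  · rw [eN, ← eS, ← rc_hs (κ := κ0 x) r1 hD (b1 x) (k1 x).1]
    simp only [hc, clip_tab]

end Pool.Agent.MP_1a6d78_lc.GM
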