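import Pool.Agent.MP_1a6d78_lc.PS.All
import Pool.Agent.MP_1a6d78_lc.GM.ElimT

/-! PROJECT GM: the plane machine as a program (black box). -/

namespace Pool.Agent.MP_1a6d78_lc.GM

open Classical ED PR SC GL PS PS.Ct

/-- BOX -/
def BoxS : Prop :=
  ∃ (a : ℕ) (f : List Bool → ℕ), Pg (fun y => (a + 1) * lg y ^ 2) f ∧ (∀ y, f y ≤ 1) ∧
    ∀ (n : ℕ) (σ α : Equiv.Perm (Fin n)) (dir : Fin n → Bool) (s t : Fin n),
      α * α = 1 → PR.Planar σ α → (f (PR.code σ α dir s t) = 1 ↔ PR.Reach σ α dir s t)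

section
variable {κ m β q : List Bool → ℕ}

theorem askL (hk : ∀ x, 13 ≤ κ x) (hq : Nq κ m β fun x _ _ => q x) (hb : ∀ x, q x ≤ β x) {j : EN}
    (hj : Nq κ m β j) (jb : ∀ x g ρ, j x g ρ ≤ β x)
    (a : EN) (l : List EN) (hl : l.length < 12) (h : ∀ f ∈ a :: l, Nq κ m β f) :
    Nq κ m β fun x g ρ => ask (q x) (lev g (j x g ρ)) ((a :: l).map fun f => f x g ρ) := by
  have u : Lq κ m β fun x g ρ => ((a :: l).map fun f => f x g ρ).map fun a => min a (q x) := by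
    induction l generalizing a with
    | nil => exact Q.min (h a List.mem_cons_self) hq
    | cons b l ih =>
      exact U.consL (l.length + 1) (fun x => by have := hk x; simp at hl; omega)
        (Q.min (h a List.mem_cons_self) hq)
        (ih b (by simp at hl; omega) fun f k => h f (List.mem_cons_of_mem _ k))
        fun _ _ _ => by simp
  refine Q.call (U.consL (l.length + 1) (fun x => by have := hk x; omega) hj u
    fun _ _ _ => by simp) fun x g ρ y hy => ?_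
  rcases List.mem_cons.1 hy with rfl | hy
  · exact jb x g ρ
  · obtain ⟨u, -, rfl⟩ := List.mem_map.1 hy
    exact (min_le_right _ _).trans (hb x)

/-- The primitives of the level `j` of a history. -/
theorem ofOL (hk : ∀ x, 13 ≤ κ x) (hq : Nq κ m β fun x _ _ => q x) (hb : ∀ x, q x ≤ β x) {j : EN}
    (hj : Nq κ m β j) (jb : ∀ x g ρ, j x g ρ ≤ β x) :
    PC κ m β fun x g ρ => ofO (q x) (lev g (j x g ρ)) where
  al {a} h := Q.ne (askL hk hq hb hj jb _ [a] (by simp) (by simp [h, Q.c])) (Q.c 0)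
  lam {a} h := askL hk hq hb hj jb _ [a] (by simp) (by simp [h, Q.c])
  En {i a} h h' := askL hk hq hb hj jb _ [i, a] (by simp) (by simp [h, h', Q.c])
  FE {i a b} h h' h'' := askL hk hq hb hj jb _ [i, a, b] (by simp) (by simp [h, h', h'', Q.c])
  F {fl a b A B} h1 h2 h3 h4 h5 := askL hk hq hb hj jb (fun _ _ _ => 4)
    [fun x g ρ => if fl x g ρ = true then 1 else 0, a, b, fun x g ρ => (A x g ρ).i,
      fun x g ρ => (A x g ρ).p, fun x g ρ => (A x g ρ).s, fun x g ρ => (A x g ρ).q,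
      fun x g ρ => (B x g ρ).i, fun x g ρ => (B x g ρ).p, fun x g ρ => (B x g ρ).s,
      fun x g ρ => (B x g ρ).q] (by simp) (by
        simp only [List.forall_mem_cons]
        exact ⟨Q.c 4, Q.ite h1 (Q.c 1) (Q.c 0), h2, h3, h4.i, h4.p, h4.s, h4.q, h5.i, h5.p, h5.s,
          h5.q, by simp⟩)
  next {a} h := askL hk hq hb hj jb _ [a] (by simp) (by simp [h, Q.c])
  cur {a} h := askL hk hq hb hj jb _ [a] (by simp) (by simp [h, Q.c])
  rs := askL hk hq hb hj jb (fun _ _ _ => 7) [] (by simp) (by simp [Q.c])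

end

theorem fin (hR : RecCS) (hO : SubOS) (c A T : ℕ) (hc : 3840 ≤ c) (hA : 49152 * c + 2 ≤ A) (hK : (A + 32) * (768 * c) ≤ T) :
    BoxS := by
  obtain ⟨D, eD⟩ : ∃ D, D = T * (2 * (2 * A + 16 + 6) + 1) := ⟨_, rfl⟩
  obtain ⟨q, eq⟩ : ∃ q : List Bool → ℕ, q = fun x => (x.length + 2) ^ (32 * D + 64 + 7) := ⟨_, rfl⟩
  obtain ⟨b, eb⟩ : ∃ b, b = 2 * (32 * D + 64 + 7) + 3600 * c + (D + 1) := ⟨_, rfl⟩
  have cq : ∀ κ, Cn κ fun x _ => q x := fun κ =>
    K.cg (K.pow _ (K.add (kitOne κ).len (K.c 2))) fun x _ => by rw [eq]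
  have qb : ∀ x, q x ≤ (x.length + 2) ^ b := fun x => by
    rw [eq]; exact Nat.pow_le_pow_right (by omega) (by omega)
  have q7 : ∀ x, 7 ≤ q x := fun x => by
    have := le_pow x.length (32 * D + 64 + 7)
    rw [eq]
    dsimp only
    omega
  have nb : ∀ x, (M0 x).n ≤ (x.length + 2) ^ 6 := (PL.redC fun _ => 0).2.2.2.2
  have e : ∀ x P, ofO (q x) (nrm 12 ((x.length + 2) ^ b) (toO (q x) P)) = P.clip (q x) :=
    fun x P => ofO_toO (qb x) (q7 x) P
  have bg : ∀ x, ∀ j ≤ D * lg x, 16 * (M0 x).n * (2 * j + 4) < q x := fun x j hj => by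
    rw [eq]; exact qbig (nb x) (lg_le x) hj
  obtain ⟨E, hE⟩ := elimT hR hO 12 1 b (2 * A + 16 + 6) T
    (le_trans (Nat.mul_pos (by omega) (by omega)) hK) (by omega)
    (by rw [← eD]; exact Nat.lt_two_pow_self.le.trans (Nat.pow_le_pow_right (by omega) (by omega)))
    _ rfl (fun _ => 0) (fun x => toO (q x) (base0 (M0 x)))
    (fun x w j _ o => toO (q x) (step (M0 x).n (z0 x) c (q x) (ofO (q x) o) j w))
    (fun _ _ _ _ => []) (fun x _ o => Phi A (M0 x).n (q x) (ofO (q x) o))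
    (fun x H => if (ofO (q x) (lev H (D * lg x))).rs = 1 then 1 else 0)
    (fun x => 9 * (4 * (4 * c) * (2 * q x + 3) ^ 2))
    (fun x j o => Good (M0 x).n (z0 x) ((M0 x).Cy 0 (z0 x)) (ofO (q x) (lev o j)) j ∧ j ≤ D * lg x)
    (fun x => (M0 x).Ok ∧ (M0 x).al (z0 x))
    (fun κ hκ => ⟨K.c 0, B0.base (cq κ),
      M.ren _ (fun i => if i = 2 then 3 else i) (cStep c hκ (cq κ) qb),
      PhiC (P := fun x g => ofO (q x) g) (ofOC hκ (Q.lift (cq κ)) qb) A B0.n (cq κ)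
        (fun x => by have := bg x 0 (Nat.zero_le _); have := qb x; omega) qb,
      K.mul (K.c 9) (K.mul (K.c (4 * (4 * c))) (K.pow 2 (K.add (K.mul (K.c 2) (cq κ)) (K.c 3))))⟩)
    (fun x => by rw [eq, eb]; exact wbig)
    (fun x hx => by
      obtain ⟨ls, I, -⟩ := base0S _ hx.1
      rw [lev_his0, e]
      exact ⟨clip_good (Or.inr ⟨rfl, _, ls, rfl, I, hx.2, Iff.rfl⟩)
        (big (k := 0) (bg x 0 (Nat.zero_le _)) (by omega)) (q7 x), Nat.zero_le _⟩)
    (fun x hx => by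
      obtain ⟨ls, I, t⟩ := base0S _ hx.1
      rw [e, phi_clip A I rfl (big (j := 0) (k := 0) (bg x 0 (Nat.zero_le _)) (by omega)) (q7 x)]
      exact phi0 (nb x) ((Nat.sub_le _ _).trans (cnt_le _ _)) t)
    (fun x _ j hj o w _ h => by
      rw [← eD] at hj
      rw [lev_ext_lt j.lt_succ_self, e]
      exact ⟨clip_good (step_good h.1 (bg x j hj.le) (by omega))
        (big (k := 2) (bg x j hj.le) le_rfl) (q7 x), hj⟩)
    (fun x _ j hj o h => by
      rw [← eD] at hj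
      obtain ⟨w, w1, w2⟩ := step_pot h.1 (bg x j hj.le) (q7 x) hc hA hK
      exact ⟨w, w1, by rw [e]; exact w2⟩)
  rw [← eD] at hE
  have l1 : ∀ x, 1 ≤ lg x := fun _ => Nat.succ_pos _
  have k1 : ∀ x, 13 ≤ (E + 12 + 1) * lg x ^ 2 := fun x => by
    have := Nat.one_le_pow 2 _ (l1 x)
    nlinarith
  obtain ⟨f, f1, f2, f3⟩ := hE (fun y => (E + 12 + 1) * lg y ^ 2)
    (fun x => Nat.mul_le_mul_right _ (by omega))
    (Q.liftL ((kitOne _).tab (n := fun _ => 0) (fun _ _ _ => 0) (fun _ => Nat.zero_le _) (K.c 0)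
      (K.c 0)))
    (Q.ite (Q.eq (ofOL (q := q) k1 (Q.lift (cq _)) qb (Q.lift (K.mul (K.c D) (lgC _)))
      fun x _ _ => (Nat.mul_le_mul ((Nat.le_succ D).trans (le_pow x.length D))
        ((lg_le x).trans (Nat.le_succ _))).trans (by
          rw [← pow_succ]; exact Nat.pow_le_pow_right (by omega) (by omega))).rs (Q.c 1)) (Q.c 1) (Q.c 0))
  refine ⟨E + 12, f, f1, fun y => ?_, fun n σ α dir s t hα hG => ?_⟩
  · obtain ⟨H, h⟩ := f2 y
    rw [h]
    split_ifs <;> omega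
  obtain ⟨p1, p2, p3⟩ := code0 σ α dir s t hα hG rfl
  obtain ⟨o, ⟨g, hj⟩, z, h⟩ := f3 _ ⟨p1, p2⟩
  rw [h]
  rcases g with g | ⟨g, N, ls, e1, I, -⟩
  · rw [p3, ← g.2]
    split_ifs with h <;> simp [h]
  · rw [← e1, phi_eq A I g (by rw [e1]; exact big (k := 0) (bg _ _ hj) (by omega))] at z
    exact absurd (Nat.eq_zero_of_add_eq_zero_right z) (Nat.mul_pos (by omega) (by omega)).ne'

theorem box (hR : RecCS) (hO : SubOS) : BoxS := fin hR hO 3840 _ _ le_rfl le_rfl le_rfl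

end Pool.Agent.MP_1a6d78_lc.GM
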