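import Pool.Agent.MP_1a6d78_lc.PR.Defs

/-! The genus of a combinatorial map. -/

namespace Pool.Agent.MP_1a6d78_lc.GM

/-- The genus of the map (the sum of the genera of its components), from Euler's formula
`V - E + F = 2 c - 2 g`.  Vertices are the cycles of `σ`, edges the 2-cycles of the involution `α`
(so `E = n - orb α`), faces the cycles of `σ * α`, and `c` is the number of components. -/
noncomputable def genus {n : ℕ} (σ α : Equiv.Perm (Fin n)) : ℕ :=
  (n + 2 * PR.orb (Subgroup.closure {σ, α}) - (PR.orb (Subgroup.zpowers σ) +
    PR.orb (Subgroup.zpowers α) + PR.orb (Subgroup.zpowers (σ * α)))) / 2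

end Pool.Agent.MP_1a6d78_lc.GM
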