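import Pool.Agent.MP_1a6d78_lc.GM.Spec
import Pool.Agent.MP_1a6d78_lc.GN.Defs

/-! PROJECT GM: the programs for the definitions of GN. -/

namespace Pool.Agent.MP_1a6d78_lc.GM

open Classical ED PR SC GN PL

abbrev VN : Type := List Bool → Orc → Env → ℕ
abbrev VF : Type := List Bool → Orc → Env → ℕ → ℕ
abbrev VP : Type := List Bool → Orc → Env → ℕ → Prop
abbrev VL : Type := List Bool → Orc → Env → List ℕ

/-- A computable bound for loops. -/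
structure NB (κ q β : List Bool → ℕ) (N : List Bool → Orc → ℕ) : Prop where
  c : Nq κ q β fun x g _ => N x g
  b : ∀ x g, N x g + 1 ≤ q x

/-- A computable size of tables. -/
structure TB (κ q k : List Bool → ℕ) : Prop where
  c : Cn κ fun x _ => k x
  a : ∀ x, k x ≤ κ x
  b : ∀ x, k x + 1 ≤ q x

variable {κ q β k : List Bool → ℕ} {N : List Bool → Orc → ℕ} {a b d : VN} {f γ : VF} {P K : VP}
  {l : VL}

theorem TB.nb (h : TB κ q k) : NB κ q β fun x _ => k x := ⟨Q.lift h.c, fun x _ => h.b x⟩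

theorem TB.tab (h : TB κ q k) (hf : Fq κ q β f) : Lq κ q β fun x g ρ => tab (k x) (f x g ρ) :=
  Q.tab f h.a (fun x => (Nat.le_succ _).trans (h.b x)) h.c hf

theorem lstLe (n : ℕ) (P : ℕ → Prop) : lst (n + 1) P ≤ n := by
  by_cases h : ∃ m < n + 1, P m
  · exact Nat.le_of_lt_succ (lst_spec h).1
  · have : {m | m < n + 1 ∧ P m} = ∅ := Set.eq_empty_of_forall_notMem fun m k => h ⟨m, k⟩
    rw [lst, this, Nat.sInf_empty]
    exact Nat.zero_le _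

theorem gtLe {l : List ℕ} {b : ℕ} (h : ∀ a ∈ l, a ≤ b) (e : ℕ) : gt l e ≤ b := by
  rw [gt, List.getD_eq_getElem?_getD]
  rcases k : l[e]? with _ | a
  · exact Nat.zero_le _
  · exact h a (List.mem_of_getElem? k)

theorem memTab {n b : ℕ} {f : ℕ → ℕ} (h : ∀ e, f e ≤ b) : ∀ a ∈ tab n f, a ≤ b := fun a k => by
  obtain ⟨e, -, rfl⟩ := List.mem_map.1 k
  exact h e

namespace NB

theorem le (h : NB κ q β N) (x : List Bool) (g : Orc) (_ : Env) : N x g ≤ q x :=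
  (Nat.le_succ _).trans (h.b x g)

theorem ex (h : NB κ q β N) (hP : P1q κ q β P) : Pq κ q β fun x g ρ => ∃ m < N x g, P x g ρ m :=
  Q.ex h.c h.le hP

theorem all (h : NB κ q β N) (hP : P1q κ q β P) : Pq κ q β fun x g ρ => ∀ m < N x g, P x g ρ m :=
  Q.all h.c h.le hP

theorem cnt (h : NB κ q β N) (hP : P1q κ q β P) : Nq κ q β fun x g ρ => cnt (N x g) (P x g ρ) :=
  Q.cnt h.c h.le hP

theorem lst (h : NB κ q β N) (hP : P1q κ q β P) : Nq κ q β fun x g ρ => lst (N x g) (P x g ρ) :=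
  Q.lst h.c h.le hP

theorem lst1 (h : NB κ q β N) (hP : P1q κ q β P) :
    Nq κ q β fun x g ρ => PR.lst (N x g + 1) (P x g ρ) :=
  Q.lst (Q.add h.c (Q.c 1)) (fun x g _ => h.b x g) hP

theorem sc (h : NB κ q β N) (hf : Fq κ q β f) (ha : Nq κ q β a) (hb : Nq κ q β b) :
    Pq κ q β fun x g ρ => Sc (N x g) (f x g ρ) (a x g ρ) (b x g ρ) :=
  Q.cgP (h.ex (P := fun x g ρ t => it (N x g) (f x g ρ) (min t (N x g)) (a x g ρ) = b x g ρ)
    (Q.eq (Q.it h.c (Q.wF hf) (Q.min (Q.v 0) h.c)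
      (fun x g ρ => (min_le_right _ _).trans (h.le x g ρ)) (Q.w ha)) (Q.w hb))) fun _ _ _ =>
    exists_congr fun t => and_congr_right fun ht => by rw [min_eq_left ht.le]

theorem nsc (h : NB κ q β N) (hK : P1q κ q β K) (hf : Fq κ q β f) :
    Nq κ q β fun x g ρ => ncl (N x g) (K x g ρ) (Sc (N x g) (f x g ρ)) :=
  h.cnt (P := fun x g ρ d => K x g ρ d ∧ ∀ e < N x g, Sc (N x g) (f x g ρ) d e → d ≤ e)
    (Q.and hK (h.all (P := fun x g ρ e => Sc (N x g) (f x g (tl ρ)) (hd (ρ 0)) e → hd (ρ 0) ≤ e)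
      (Q.imp (h.sc (Q.wF (Q.wF hf)) (Q.v 1) (Q.v 0)) (Q.le (Q.v 1) (Q.v 0)))))

theorem half (h : NB κ q β fun x g => 2 * N x g) : NB κ q β N :=
  ⟨Q.cg (Q.div h.c (Q.c 2)) fun _ _ _ => by omega, fun x g => by have := h.b x g; omega⟩

end NB

theorem cmpC (hf : Fq κ q β f) (hγ : Fq κ q β γ) :
    Fq κ q β fun x g ρ e => f x g ρ (γ x g ρ e) := Q.app (Q.wF hf) hγ

theorem flC (ha : Nq κ q β a) : Nq κ q β fun x g ρ => fl (a x g ρ) :=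
  Q.app (f := fun _ _ _ => fl) (Q.ite (Q.eq (Q.mod (Q.v 0) (Q.c 2)) (Q.c 0)) (Q.add (Q.v 0) (Q.c 1))
    (Q.sub (Q.v 0) (Q.c 1))) ha

theorem edC (hP : P1q κ q β P) : Fq κ q β fun x g ρ => ed (P x g ρ) :=
  Q.ite (Q.appP (Q.wP1 hP) (Q.div (Q.v 0) (Q.c 2))) (flC (Q.v 0)) (Q.v 0)

theorem fcC (hf : Fq κ q β f) (hP : P1q κ q β P) : Fq κ q β fun x g ρ => fc (f x g ρ) (P x g ρ) :=
  Q.cg (cmpC hf (edC hP)) fun _ _ _ => rfl

theorem trC (hf : Fq κ q β f) : Fq κ q β fun x g ρ => tr (f x g ρ) := by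
  have u := Q.app (Q.wF hf) (Q.mul (Q.c 2) (Q.v 0))
  exact Q.ite (Q.eq u (Q.mul (Q.c 2) (Q.v 0))) (Q.v 0) (Q.div (Q.add (Q.mul (Q.c 4) (Q.div u (Q.c 4)))
    (Q.mod (Q.add u (Q.c 3)) (Q.c 4))) (Q.c 2))

theorem loC (hγ : Fq κ q β γ) (hd : Nq κ q β d) : Fq κ q β fun x g ρ => lo (γ x g ρ) (d x g ρ) :=
  Q.ite (Q.lt (Q.min (Q.v 0) hγ) (Q.w (Q.min hd (Q.app hγ hd)))) hγ (Q.v 0)

theorem t0C (h : NB κ q β N) (hf : Fq κ q β f) (hγ : Fq κ q β γ) :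
    Fq κ q β fun x g ρ => t0 (N x g) (f x g ρ) (γ x g ρ) :=
  Q.ite (h.sc (cmpC (Q.wF hf) (loC (Q.wF hγ) (Q.v 0))) (Q.v 0) hγ) (Q.v 0) hγ

theorem dlC (t : TB κ q k) (hγ : Fq κ q β γ) (hl : Lq κ q β l) :
    Fq κ q β fun x g ρ => dl (k x) (γ x g ρ) (l x g ρ) :=
  Q.ite (t.nb.ex (P := fun x g ρ i => gt (l x g (tl ρ)) i = hd (ρ 0) ∨
      gt (l x g (tl ρ)) i = γ x g (tl ρ) (hd (ρ 0)))
    (Q.or (Q.eq (Q.gt (Q.wL (Q.wL hl)) (Q.v 0)) (Q.v 1))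
      (Q.eq (Q.gt (Q.wL (Q.wL hl)) (Q.v 0)) (Q.w hγ)))) (Q.v 0) hγ

theorem nbC (h : NB κ q β N) (hf : Fq κ q β f) (hγ : Fq κ q β γ) :
    Nq κ q β fun x g ρ => nb (N x g) (f x g ρ) (γ x g ρ) :=
  h.lst1 (P := fun x g ρ d => d = N x g ∨ ¬Sc (N x g) (fun e => f x g ρ (γ x g ρ e)) d (γ x g ρ d))
    (Q.or (Q.eq (Q.v 0) h.c) (Q.not (h.sc (Q.wF (cmpC hf hγ)) (Q.v 0) hγ)))

theorem tblC (h : NB κ q β N) (t : TB κ q k) (hf : Fq κ q β f) (hγ : Fq κ q β γ) :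
    Lq κ q β fun x g ρ => tbl (N x g) (k x) (f x g ρ) (γ x g ρ) (k x) :=
  Q.foldL (fun x g ρ i l => tab (k x) fun e =>
      if e = i then nb (N x g) (f x g ρ) (dl (k x) (γ x g ρ) l) else gt l e)
    (fun x g _ _ => N x g) t.nb.c (t.nb (β := β)).le (t.tab (f := fun x g _ _ => N x g) h.c)
    (t.tab (f := fun x g ρ e => if e = hd (ρ 1) then nb (N x g) (f x g (tl (tl ρ)))
        (dl (k x) (γ x g (tl (tl ρ))) (ρ 0)) else gt (ρ 0) e)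
      (Q.ite (Q.eq (Q.v 0) (Q.v 2)) (Q.w (nbC h (Q.wF (Q.wF hf)) (dlC t (Q.wF (Q.wF hγ)) (Q.vL 0))))
        (Q.gt (Q.vL 1) (Q.v 0)))) h.c
    fun _ _ _ _ _ _ h1 h2 => memTab fun e => by
      split_ifs
      · exact (lstLe _ _).trans h2
      · exact gtLe h1 e

/-- Connectivity with a table. -/
theorem cnC (h : NB κ q β N) (t : TB κ q k) (hf : Fq κ q β f) (hγ : Fq κ q β γ) (ha : Nq κ q β a)
    (hb : Nq κ q β b) :
    Pq κ q β fun x g ρ => cn (N x g) (k x) (f x g ρ) (γ x g ρ) (a x g ρ) (b x g ρ) :=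
  Q.appLN (f := fun x g ρ l => if Sc (N x g) (fun e => f x g ρ (dl (k x) (t0 (N x g) (f x g ρ)
      (γ x g ρ)) l e)) (a x g ρ) (b x g ρ) then 1 else 0)
    (h.sc (cmpC (Q.wF hf) (dlC t (Q.wF (t0C h hf hγ)) (Q.vL 0))) (Q.w ha) (Q.w hb))
    (tblC h t hf (t0C h hf hγ))

theorem psC (h : NB κ q β N) (hf : Fq κ q β f) (hγ : Fq κ q β γ) (hK : P1q κ q β K) :
    Pq κ q β fun x g ρ => ps (N x g) (f x g ρ) (γ x g ρ) (K x g ρ) :=
  Q.lt (Q.add (Q.add (h.nsc hK hγ) (h.nsc hK (cmpC hf hγ))) (h.nsc hK hf)) (Q.add (Q.c 2) (h.cnt hK))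

theorem db (ha : Nq κ q β a) : Nq κ q β fun x g ρ => 2 * a x g ρ := Q.mul (Q.c 2) ha

theorem db1 (ha : Nq κ q β a) : Nq κ q β fun x g ρ => 2 * a x g ρ + 1 := Q.add (db ha) (Q.c 1)

theorem m2 (ha : Nq κ q β a) : Nq κ q β fun x g ρ => a x g ρ % 2 := Q.mod ha (Q.c 2)

theorem hf2 (ha : Nq κ q β a) : Nq κ q β fun x g ρ => a x g ρ / 2 := Q.div ha (Q.c 2)

theorem sadC (h : NB κ q β fun x g => 2 * N x g) (hf : Fq κ q β f) (hP : P1q κ q β P)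
    (ha : Nq κ q β a) : Pq κ q β fun x g ρ => sad (N x g) (f x g ρ) (P x g ρ) (a x g ρ) := by
  have u := m2 (Q.w (Q.app hf (db ha)))
  refine h.half.ex (P := fun x g ρ e => e ≠ a x g ρ ∧
    f x g ρ (2 * e) % 2 = f x g ρ (2 * a x g ρ) % 2 ∧ if f x g ρ (2 * a x g ρ) % 2 = 1 then
      Sc (2 * N x g) (f x g ρ) (2 * a x g ρ) (2 * e) else
      Sc (2 * N x g) (fc (f x g ρ) (P x g ρ)) (2 * a x g ρ + 1) (2 * e + 1))
    (Q.and (Q.ne (Q.v 0) (Q.w ha)) (Q.and (Q.eq (m2 (Q.app (Q.wF hf) (db (Q.v 0)))) u)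
      (Q.cgP (Q.or (Q.and (Q.eq u (Q.c 1)) (h.sc (Q.wF hf) (db (Q.w ha)) (db (Q.v 0))))
        (Q.and (Q.not (Q.eq u (Q.c 1))) (h.sc (Q.wF (fcC hf hP)) (db1 (Q.w ha)) (db1 (Q.v 0)))))
        fun _ _ _ => ?_)))
  split_ifs with c <;> simp [c]

theorem fwC (h : NB κ q β fun x g => 2 * N x g) (hf : Fq κ q β f) :
    Fq κ q β fun x g ρ => fw (N x g) (f x g ρ) := by
  have u : P1q κ q β fun x g ρ e => f x g (tl ρ) (2 * e) % 2 = 1 ∧
      Sc (2 * N x g) (f x g (tl ρ)) (hd (ρ 0)) (2 * e) :=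
    Q.and (Q.eq (m2 (Q.app (Q.wF (Q.wF hf)) (db (Q.v 0)))) (Q.c 1))
      (h.sc (Q.wF (Q.wF hf)) (Q.v 1) (db (Q.v 0)))
  exact Q.ite (h.half.ex u) (db1 (h.half.lst u)) (Q.v 0)

/-- The data of a history are computable. -/
structure HC (κ q β : List Bool → ℕ) (H : List Bool → Orc → Hs) : Prop where
  n : NB κ q β fun x g => 2 * (H x g).n
  σ : ∀ {k d : VN}, Nq κ q β k → Nq κ q β d → Nq κ q β fun x g ρ => (H x g).σ (k x g ρ) (d x g ρ)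
  A : ∀ {k c : VN}, Nq κ q β k → Nq κ q β c → Pq κ q β fun x g ρ => (H x g).A (k x g ρ) (c x g ρ)
  T : ∀ {k c : VN}, Nq κ q β k → Nq κ q β c → Pq κ q β fun x g ρ => (H x g).T (k x g ρ) (c x g ρ)
  C : ∀ {f γ : VF} {a b : VN}, Fq κ q β f → Fq κ q β γ → Nq κ q β a → Nq κ q β b →
    Pq κ q β fun x g ρ => (H x g).C (f x g ρ) (γ x g ρ) (a x g ρ) (b x g ρ)

/-- A number of a round. -/
structure RN (κ q β : List Bool → ℕ) (j : VN) : Prop where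
  c : Nq κ q β j
  b : ∀ x g ρ, j x g ρ + 1 ≤ q x

theorem RN.w {j : VN} (h : RN κ q β j) : RN κ q β fun x g ρ => j x g (tl ρ) :=
  ⟨Q.w h.c, fun _ _ _ => h.b _ _ _⟩

theorem RN.le {j : VN} (h : RN κ q β j) (x : List Bool) (g : Orc) (ρ : Env) : j x g ρ ≤ q x :=
  (Nat.le_succ _).trans (h.b x g ρ)

/-- The loop variable, cut at the bound. -/
theorem RN.v {j : VN} (h : RN κ q β j) : RN κ q β fun x g ρ => min (hd (ρ 0)) (j x g (tl ρ)) :=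
  ⟨Q.min (Q.v 0) (Q.w h.c), fun x g _ => (Nat.succ_le_succ (min_le_right _ _)).trans (h.b x g _)⟩

namespace HC

variable {H : List Bool → Orc → Hs} (h : HC κ q β H) {j c s t : VN}
include h

theorem σF (hj : Nq κ q β j) : Fq κ q β fun x g ρ => (H x g).σ (j x g ρ) := h.σ (Q.w hj) (Q.v 0)

theorem AP (hj : Nq κ q β j) : P1q κ q β fun x g ρ => (H x g).A (j x g ρ) := h.A (Q.w hj) (Q.v 0)

theorem pos (hj : Nq κ q β j) (hc : Nq κ q β c) :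
    Pq κ q β fun x g ρ => (H x g).pos (j x g ρ) (c x g ρ) :=
  psC h.n (h.σF hj) (edC (h.AP hj))
    (h.C (Q.wF (h.σF hj)) (Q.wF (edC (h.AP hj))) (Q.w (db hc)) (Q.v 0))

theorem Co (hj : RN κ q β j) (hc : Nq κ q β c) :
    Pq κ q β fun x g ρ => (H x g).Co (j x g ρ) (c x g ρ) :=
  Q.and (h.A hj.c hc) (Q.all (P := fun x g ρ i => (H x g).pos i (c x g ρ)) (Q.add hj.c (Q.c 1)) hj.b
    (h.pos (Q.v 0) (Q.w hc)))

theorem D (hj : RN κ q β j) (hc : Nq κ q β c) :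
    Pq κ q β fun x g ρ => (H x g).D (j x g ρ) (c x g ρ) :=
  Q.cgP (Q.ex (P := fun x g ρ i => (H x g).Co (min i (j x g ρ)) (c x g ρ) ∧
      ¬(H x g).A (i + 1) (c x g ρ) ∧ ¬(H x g).T i (c x g ρ)) hj.c hj.le
    (Q.and (h.Co hj.v (Q.w hc)) (Q.and (Q.not (h.A (Q.add (Q.v 0) (Q.c 1)) (Q.w hc)))
      (Q.not (h.T (Q.v 0) (Q.w hc)))))) fun _ _ _ =>
    exists_congr fun i => and_congr_right fun hi => by rw [min_eq_left hi.le]

theorem Y (hj : RN κ q β j) (hc : Nq κ q β c) :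
    Pq κ q β fun x g ρ => (H x g).Y (j x g ρ) (c x g ρ) :=
  Q.cgP (Q.ex (P := fun x g ρ i => (H x g).Co (min i (j x g ρ)) (c x g ρ) ∧ (H x g).T i (c x g ρ))
    hj.c hj.le (Q.and (h.Co hj.v (Q.w hc)) (h.T (Q.v 0) (Q.w hc)))) fun _ _ _ =>
    exists_congr fun i => and_congr_right fun hi => by rw [min_eq_left hi.le]

theorem G (hj : RN κ q β j) (hc : Nq κ q β c) :
    Pq κ q β fun x g ρ => (H x g).G (j x g ρ) (c x g ρ) :=
  Q.and (h.A (Q.c 0) hc) (Q.not (h.D hj hc))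

theorem S (hj : RN κ q β j) (hc : Nq κ q β c) :
    Pq κ q β fun x g ρ => (H x g).S (j x g ρ) (c x g ρ) :=
  Q.and (h.G hj hc) (Q.or (Q.not (h.Co hj hc)) (h.Y hj hc))

theorem Yp (hj : RN κ q β j) (hP : P1q κ q β P) (hb : Nq κ q β b) (ha : Nq κ q β a) :
    Pq κ q β fun x g ρ => (H x g).Yp (j x g ρ) (P x g ρ) (b x g ρ) (a x g ρ) :=
  h.n.half.ex (P := fun x g ρ c => P x g ρ c ∧ (H x g).C ((H x g).σ 0) (ed ((H x g).S (j x g ρ)))
      (2 * c + b x g ρ) (a x g ρ))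
    (Q.and hP (h.C (h.σF (Q.c 0)) (edC (P := fun x g ρ => (H x g).S (j x g (tl ρ)))
      (h.S hj.w.w (Q.v 0))) (Q.add (db (Q.v 0)) (Q.w hb)) (Q.w ha)))

theorem Free (hj : RN κ q β j) (hP : P1q κ q β P) (hb : Nq κ q β b) (ha : Nq κ q β a) :
    Pq κ q β fun x g ρ => (H x g).Free (j x g ρ) (P x g ρ) (b x g ρ) (a x g ρ) :=
  Q.and (Q.not (h.Yp hj hP hb ha)) (h.n.half.all (P := fun x g ρ c => (H x g).Co (j x g ρ) c →
      ¬(H x g).Y (j x g ρ) c → (H x g).Yp (j x g ρ) (P x g ρ) (b x g ρ) (2 * c + (1 - b x g ρ)) →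
        P x g ρ c)
    (Q.imp (h.Co hj.w (Q.v 0)) (Q.imp (Q.not (h.Y hj.w (Q.v 0))) (Q.imp (h.Yp hj.w (Q.wP1 hP)
      (Q.w hb) (Q.add (db (Q.v 0)) (Q.sub (Q.c 1) (Q.w hb)))) hP))))

theorem St (hj : RN κ q β j) (hc : RN κ q β c) :
    Pq κ q β fun x g ρ => (H x g).St (j x g ρ) (c x g ρ) :=
  Q.and (h.Co hj (hf2 hc.c)) (Q.or (sadC h.n (h.σF hj.c) (h.AP hj.c) (hf2 hc.c))
    (Q.all (P := fun x g ρ e => ¬(H x g).C ((H x g).σ (j x g ρ)) (ed ((H x g).A (j x g ρ)))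
      (c x g ρ) e) hc.c hc.le
      (Q.not (h.C (Q.wF (h.σF hj.c)) (Q.wF (edC (h.AP hj.c))) (Q.w hc.c) (Q.v 0)))))

theorem Yl (hj : RN κ q β j) (hc : Nq κ q β c) :
    P1q κ q β fun x g ρ => (H x g).Yl (j x g ρ) (c x g ρ) :=
  Q.and (h.Y hj.w (Q.v 0)) (Q.le (Q.v 0) (Q.w hc))

theorem dr (hj : RN κ q β j) (hc : Nq κ q β c) :
    Pq κ q β fun x g ρ => (H x g).dr (j x g ρ) (c x g ρ) :=
  Q.and (h.Y hj hc) (Q.and (Q.not (h.n.sc (fcC (h.σF (Q.c 0)) (h.Yl hj hc)) (db hc) (db1 hc)))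
    (h.C (fcC (h.σF (Q.c 0)) (h.Yl hj hc)) (edC (P := fun x g ρ e => (H x g).G (j x g ρ) e ∧
      ¬(H x g).Yl (j x g ρ) (c x g ρ) e) (Q.and (h.G hj.w (Q.v 0)) (Q.not (h.Yl hj hc))))
      (db hc) (db1 hc)))

theorem It (hj : RN κ q β j) (hs : Nq κ q β s) (ht : Nq κ q β t) (hc : RN κ q β c) :
    Pq κ q β fun x g ρ => (H x g).It (j x g ρ) (s x g ρ) (t x g ρ) (c x g ρ) :=
  Q.or (h.St hj hc) (Q.or (Q.and (Q.eq (m2 hc.c) (Q.c 0)) (h.dr hj (hf2 hc.c)))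
    (Q.or (Q.eq hc.c hs) (Q.eq hc.c ht)))

theorem rn : RN κ q β fun x g _ => 2 * (H x g).n := ⟨h.n.c, fun x g _ => h.n.b x g⟩

theorem It1 (hj : RN κ q β j) (hs : Nq κ q β s) (ht : Nq κ q β t) : P1q κ q β fun x g ρ i =>
    (H x g).It (j x g ρ) (s x g ρ) (t x g ρ) (min i (2 * (H x g).n)) :=
  h.It hj.w (Q.w hs) (Q.w ht) h.rn.v

theorem wk (hj : Nq κ q β j) (ha : Nq κ q β a) (hc : RN κ q β c) :
    Nq κ q β fun x g ρ => (H x g).wk (j x g ρ) (a x g ρ) (c x g ρ) :=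
  Q.it h.n.c (fwC h.n (h.σF hj)) hc.c hc.le ha

theorem bl (hj : RN κ q β j) (ha : Nq κ q β a) (hb : Nq κ q β b) :
    Pq κ q β fun x g ρ => (H x g).bl (j x g ρ) (a x g ρ) (b x g ρ) :=
  h.C (h.σF (Q.c 0)) (edC (P := fun x g ρ => (H x g).Y (j x g ρ)) (h.Y hj.w (Q.v 0))) ha hb

theorem U (hj : RN κ q β j) (hs : Nq κ q β s) (ht : Nq κ q β t) (ha : Nq κ q β a) :
    Pq κ q β fun x g ρ => (H x g).U (j x g ρ) (s x g ρ) (t x g ρ) (a x g ρ) :=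
  Q.cgP (h.n.ex (P := fun x g ρ i => (H x g).It (j x g ρ) (s x g ρ) (t x g ρ)
      (min i (2 * (H x g).n)) ∧ ∃ e < 2 * (H x g).n, (H x g).bl (j x g ρ)
        ((H x g).wk (j x g ρ) i (min e (2 * (H x g).n))) (a x g ρ))
    (Q.and (h.It1 hj hs ht) (h.n.ex (P := fun x g ρ e => (H x g).bl (j x g (tl ρ))
      ((H x g).wk (j x g (tl ρ)) (hd (ρ 0)) (min e (2 * (H x g).n))) (a x g (tl ρ)))
      (h.bl hj.w.w (h.wk hj.w.w.c (Q.v 1) h.rn.v) (Q.w (Q.w ha)))))) fun _ _ _ =>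
    exists_congr fun i => and_congr_right fun hi => by
      rw [min_eq_left hi.le]
      exact and_congr_right fun _ => exists_congr fun e => and_congr_right fun he => by
        rw [min_eq_left he.le]

theorem B (hj : RN κ q β j) (hs : Nq κ q β s) (ht : Nq κ q β t) (hc : Nq κ q β c) :
    Pq κ q β fun x g ρ => (H x g).B (j x g ρ) (s x g ρ) (t x g ρ) (c x g ρ) :=
  Q.and (h.G hj hc) (Q.and (Q.not (h.U hj hs ht (db hc))) (Q.not (h.U hj hs ht (db1 hc))))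

end HC

theorem sel_min (n : ℕ) (P : ℕ → Prop) (e : ℕ) : sel n (fun y => P (min y n)) e = sel n P e := by
  unfold sel lst
  congr 1
  ext y
  refine and_congr_right fun hy => or_congr_right ?_
  have : y ≤ n := Nat.le_of_lt_succ hy
  beta_reduce
  rw [min_eq_left this, cnt_congr (Q := P) fun z hz => by rw [min_eq_left (by omega)]]

/-- The data of the pointers are computable. -/
structure PtC (κ q β k : List Bool → ℕ) (Z : List Bool → Orc → GN.Pt) : Prop where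
  n : NB κ q β fun x g => (Z x g).n
  A : P1q κ q β fun x g _ => (Z x g).A
  J : ∀ x g, (Z x g).J = k x
  R : NB κ q β fun x g => (Z x g).R
  w : ∀ {e j : VN}, Nq κ q β e → RN κ q β j → Nq κ q β fun x g ρ => (Z x g).w (e x g ρ) (j x g ρ)
  bl : ∀ {a b : VN}, Nq κ q β a → Nq κ q β b → Pq κ q β fun x g ρ => (Z x g).bl (a x g ρ) (b x g ρ)
  bb : ∀ {a b : VN}, Nq κ q β a → Nq κ q β b → Pq κ q β fun x g ρ => (Z x g).bb (a x g ρ) (b x g ρ)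
  s : Nq κ q β fun x g _ => (Z x g).s

namespace PtC

variable {Z : List Bool → Orc → GN.Pt} (h : PtC κ q β k Z) (t : TB κ q k)
include h

theorem rn : RN κ q β fun x g _ => (Z x g).R := ⟨h.R.c, fun x g _ => h.R.b x g⟩

include t

theorem src (hl : Lq κ q β l) (ha : Nq κ q β a) :
    Pq κ q β fun x g ρ => (Z x g).src (l x g ρ) (a x g ρ) :=
  Q.cgP (Q.or (h.bl h.s ha) (t.nb.ex (P := fun x g ρ e => ∃ j < (Z x g).R, gt (l x g ρ) e ≤ j ∧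
      (Z x g).bl ((Z x g).w e (min j (Z x g).R)) (a x g ρ))
    (h.R.ex (P := fun x g ρ j => gt (l x g (tl ρ)) (hd (ρ 0)) ≤ j ∧
      (Z x g).bl ((Z x g).w (hd (ρ 0)) (min j (Z x g).R)) (a x g (tl ρ)))
      (Q.and (Q.le (Q.gt (Q.wL (Q.wL hl)) (Q.v 1)) (Q.v 0))
        (h.bl (h.w (Q.v 1) h.rn.v) (Q.w (Q.w ha))))))) fun x g _ => by
    rw [GN.Pt.src, h.J]
    exact or_congr_right (exists_congr fun e => and_congr_right fun _ => exists_congr fun j =>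
      and_congr_right fun hj => by rw [min_eq_left hj.le])

theorem hit (hl : Lq κ q β l) (ha : Nq κ q β a) :
    Pq κ q β fun x g ρ => (Z x g).hit (l x g ρ) (a x g ρ) :=
  Q.or (h.src t hl ha) (h.n.ex (P := fun x g ρ c => (Z x g).A c ∧ (Z x g).bl (2 * c + 1) (a x g ρ) ∧
      ((Z x g).src (l x g ρ) (2 * c) ∨ ∃ e < (Z x g).n, (Z x g).A e ∧
        (Z x g).src (l x g ρ) (2 * e) ∧ (Z x g).bb (2 * e + 1) (2 * c)))
    (Q.and h.A (Q.and (h.bl (db1 (Q.v 0)) (Q.w ha)) (Q.or (h.src t (Q.wL hl) (db (Q.v 0)))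
      (h.n.ex (P := fun x g ρ e => (Z x g).A e ∧ (Z x g).src (l x g (tl ρ)) (2 * e) ∧
          (Z x g).bb (2 * e + 1) (2 * hd (ρ 0)))
        (Q.and h.A (Q.and (h.src t (Q.wL (Q.wL hl)) (db (Q.v 0)))
          (h.bb (db1 (Q.v 0)) (db (Q.v 1))))))))))

theorem upd (hl : Lq κ q β l) : Lq κ q β fun x g ρ => (Z x g).upd (l x g ρ) :=
  Q.cgL (t.tab (f := fun x g ρ e => lst ((Z x g).R + 1) fun j => j = (Z x g).R ∨
      (Z x g).hit (l x g ρ) ((Z x g).w e (min j (Z x g).R)))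
    (h.R.lst1 (P := fun x g ρ j => j = (Z x g).R ∨
      (Z x g).hit (l x g (tl ρ)) ((Z x g).w (hd (ρ 0)) (min j (Z x g).R)))
      (Q.or (Q.eq (Q.v 0) h.R.c) (h.hit t (Q.wL (Q.wL hl)) (h.w (Q.v 1) h.rn.v))))) fun x g _ => by
    rw [GN.Pt.upd, h.J]
    congr 1
    funext e
    unfold lst
    congr 1
    ext j
    exact and_congr_right fun hj => by beta_reduce; rw [min_eq_left (Nat.le_of_lt_succ hj)]

theorem fin (hb : ∀ x g, k x * (Z x g).R + 1 ≤ q x) : Lq κ q β fun x g _ => (Z x g).fin :=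
  Q.cgL (Q.foldL (fun x g _ _ l => (Z x g).upd l) (fun x g _ _ => (Z x g).R)
    (Q.add (Q.mul t.nb.c h.R.c) (Q.c 1)) (fun x g _ => hb x g)
    (t.tab (f := fun x g _ _ => (Z x g).R) h.R.c) (h.upd t (Q.vL 0)) h.R.c
    fun _ _ _ _ _ _ _ h2 => memTab fun _ => (lstLe _ _).trans h2) fun x g _ => by rw [GN.Pt.fin, h.J]

end PtC

theorem HC.pt {H : List Bool → Orc → Hs} (h : HC κ q β H) {L s t : List Bool → ℕ}
    {bb : List Bool → Orc → ℕ → ℕ → Prop} (hL : RN κ q β fun x _ _ => L x)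
    (hs : Nq κ q β fun x _ _ => s x) (ht : Nq κ q β fun x _ _ => t x)
    (hb : ∀ {a b : VN}, Nq κ q β a → Nq κ q β b → Pq κ q β fun x g ρ => bb x g (a x g ρ) (b x g ρ)) :
    PtC κ q β k fun x g => (H x g).pt (L x) (s x) (t x) (k x) (bb x g) where
  n := h.n.half
  A := h.AP (Q.c 0)
  J _ _ := rfl
  R := h.n
  w he hj := h.wk hL.c (Q.cg (Q.app (Q.sel h.n.c (fun x g _ => h.n.b x g) (h.It1 hL hs ht)) he)
    fun _ _ _ => sel_min _ _ _) hj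
  bl ha hb := h.bl hL ha hb
  bb := hb
  s := hs

end Pool.Agent.MP_1a6d78_lc.GM
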