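import Pool.Agent.MP_1a6d78_lc.GM.Spec2

/-! PROJECT GM: the least size that passes a test is found by growing a list. -/

namespace Pool.Agent.MP_1a6d78_lc.GM

open Function ED SC

namespace Grow

variable {κ q β : List Bool → ℕ}

theorem time {K B : ℕ} (h : K ≤ B) : K * (13 * B + 13) + 3 * K + 5 ≤ pw B 6 := by
  have := Nat.mul_le_mul_right (13 * B + 13) h
  unfold pw
  nlinarith [Nat.zero_le (B ^ 6), Nat.zero_le (B ^ 5), Nat.zero_le (B ^ 4), Nat.zero_le (B ^ 3)]

theorem len : Cn κ fun x ρ => min (ρ 0).length (κ x) := by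
  refine ⟨6, fun x ρ B h a ha => ?_, fun ℓ b hℓ => ⟨.seq (cpLst (ℓ 0) (b + 1) (b + 2) (b + 3))
    (.seq (.act (.push b)) (.loop (.ne (b + 1)) (.seq (.act (.pop (b + 1))) (.act (.inc b))))),
    fun x σ B hB hσ h0 => ?_⟩⟩
  · have := le_pw B (c := 6) (by omega)
    have := h.2.1
    have : a = min _ _ := List.mem_singleton.1 ha
    omega
  have l0 := hℓ 0
  have l1 : (σ (ℓ 0)).length ≤ κ x := hσ _
  have a1 := ex_cpLst (x := x) hσ (i := ℓ 0) (j := b + 1) (t := b + 2) (t' := b + 3) (B := B)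
    (by omega) (by omega) (by omega) (by omega) (by omega) (by omega) hB.1 (hB.2.2.2 0)
    (h0 _ (by omega)) (h0 _ (by omega)) (h0 _ (by omega))
  have a2 := ex_push (x := x) (a1.good hσ) b
    (by rw [update_of_ne (by omega), h0 b le_rfl]; exact hB.1)
  rw [update_of_ne (by omega), h0 b le_rfl] at a2
  have a3 := Exec.loop_seq (act := act1 x) (tst := tst1 x) (G := Len (κ x)) (c := .ne (b + 1))
    (p := .seq (.act (.pop (b + 1))) (.act (.inc b)))
    (fun m => (update (update σ (b + 1) ((σ (ℓ 0)).drop m)) b [m], 0)) (σ (ℓ 0)).length 2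
    (fun m hm => ⟨by simpa [tst1] using hm, by
      have g : Len (κ x) (update (update σ (b + 1) ((σ (ℓ 0)).drop m)) b [m], 0) :=
        Len.upd (h := 0) (hσ.upd _ (by simp; omega)) b hB.1
      have e1 := ex_pop (x := x) g (b + 1)
      refine (e1.seq (ex_inc (e1.good g) (i := b) (a := m) (l := []) (by simp))).of_eq
        (congrArg (·, 0) (funext fun k => ?_)) le_rfl
      simp only [update_apply]
      split_ifs <;> simp_all⟩) (by simp [tst1])
  refine (a1.seq (a2.seq a3)).of_eq (congrArg (·, 0) (funext fun k => ?_))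
    (by have := time hB.2.1; omega)
  simp only [update_apply, List.drop_length, min_eq_left l1]
  split_ifs with u1 u2
  exacts [rfl, (h0 k (by omega)).symm, rfl]

theorem gc {t : List Bool → Orc → Env → ℕ} (ht : Nq κ q β t)
    (h : ∀ x g ρ, κ x ≤ (ρ 0).length → t x g ρ ≠ 0) :
    Lq κ q β fun x g ρ => if t x g ρ = 0 then 0 :: ρ 0 else ρ 0 := by
  obtain ⟨a, -, f2⟩ := ht
  refine ⟨a + 6 + 1, fun x g ρ B h y hy => ?_, fun ℓ b hℓ => ?_⟩
  · have := le_pw B (c := a + 6 + 1) (by omega)
    have : y = 0 ∨ y ∈ ρ 0 := by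
      dsimp only at hy
      split_ifs at hy
      exacts [List.mem_cons.1 hy, Or.inr hy]
    rcases this with e | e
    exacts [e ▸ Nat.zero_le _, (h.1.2.2.2 0 y e).trans (by omega)]
  obtain ⟨p, hp⟩ := f2 ℓ (b + 1) fun i => ⟨(hℓ i).1, (hℓ i).2.trans b.lt_succ_self⟩
  refine ⟨.seq p (up (.seq (cpLst (ℓ 0) b (b + 2) (b + 3)) (.seq
    (.ite (.nz (b + 1)) Itp.skip (.act (.push b))) (clr (b + 1))))),
    fun x g σ B τ hB hσ hz h0 => ?_⟩
  have l0 := hℓ 0
  have a1 := hp x g σ B τ hB hσ hz fun j hj => h0 j (by omega)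
  have g1 := a1.goodO hσ
  have e : ∀ j l, j ≠ b + 1 → update σ (b + 1) l j = σ j := fun j l k => update_of_ne k _ _
  have a2 := ex_cpLst (x := x) g1 (i := ℓ 0) (j := b) (t := b + 2) (t' := b + 3) (B := B)
    (by omega) (by omega) (by omega) (by omega) (by omega) (by omega) hB.1.1
    (by rw [e _ _ (by omega)]; exact hB.1.2.2.2 0) ((e _ _ (by omega)).trans (h0 _ le_rfl))
    ((e _ _ (by omega)).trans (h0 _ (by omega))) ((e _ _ (by omega)).trans (h0 _ (by omega)))
  have g2 := a2.good g1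
  rw [e _ _ (by omega)] at a2 g2
  have a3 : Ex x (κ x) (.ite (.nz (b + 1)) Itp.skip (.act (.push b)))
      (update (update σ (b + 1) [t x g fun i => σ (ℓ i)]) b (σ (ℓ 0)), 0)
      (update (update σ (b + 1) [t x g fun i => σ (ℓ i)]) b
        (if t x g (fun i => σ (ℓ i)) = 0 then 0 :: σ (ℓ 0) else σ (ℓ 0)), 0) 2 := by
    split_ifs with k
    · exact .iteF (by simp [tst1, hd, k]) ((ex_push g2 b (by
        rw [update_self]
        exact not_le.1 fun j => h x g _ j k)).of_eq (by simp) le_rfl)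
    · exact .iteT (by simp [tst1, hd, k]) Itp.ex_skip
  refine (a1.seq (Exec.upO (a2.seq (a3.seq (ex_clr (a3.good g2) _))))).of_eq
    (congrArg (·, 0) (funext fun k => ?_)) ?_
  · simp only [update_apply]
    split_ifs with u1 u2 <;> first | rfl | omega | exact (h0 k (by omega)).symm
  · have := time hB.1.2.1
    have := pw_add B a 6
    have := Nat.mul_le_mul_right τ (pw_mono (B := q x) (c := a) (c' := a + 6 + 1) le_rfl (by omega))
    omega

end Grow

open Grow Classical in
theorem grow : GrowS := by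
  intro κ q β T h1 h2 h3 h4
  refine Q.cg (Q.appLN (f := fun x _ _ l => min l.length (κ x)) (Q.lift len) (Q.foldL
    (fun x _ _ _ l => if (if T x (min l.length (κ x)) then 1 else 0) = 0 then 0 :: l else l)
    (fun _ _ _ _ => 0) (Q.lift h3) (fun _ _ _ => le_rfl) (Q.tab (m := fun _ => 0)
      (fun _ _ _ _ => 0) (fun _ => Nat.zero_le _) (fun _ => Nat.zero_le _) (PR.K.c 0) (Q.c 0))
    (gc (h4 _ (Q.lift len) fun _ _ _ => min_le_right _ _) fun x _ _ k => by
      rw [min_eq_right k, if_pos (h2 x)]; exact one_ne_zero) (Q.c 0)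
    fun x _ _ _ l b j _ a ha => ?_)) fun x _ _ => ?_
  · by_cases e : T x (min l.length (κ x))
    · exact j a (by simpa [e] using ha)
    · rw [if_neg e, if_pos rfl, List.mem_cons] at ha
      exact ha.elim (fun e => e ▸ b.zero_le) (j a)
  obtain ⟨k1, k2⟩ := PR.lst_spec (n := κ x + 1) (P := T x) ⟨κ x, Nat.lt_succ_self _, h2 x⟩
  have k : ∀ m, (itr (fun _ l => if (if T x (min l.length (κ x)) then 1 else 0) = 0 then 0 :: l
      else l) (tab 0 fun _ => 0) m).length = min m (PR.lst (κ x + 1) (T x)) := fun m => by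
    induction m with
    | zero => exact (Nat.zero_min _).symm
    | succ m ih =>
      rw [itr, ih]
      by_cases e : m < PR.lst (κ x + 1) (T x)
      · rw [min_eq_left e.le, min_eq_left (by omega), if_neg (c := T x m) fun j =>
          (PR.lst_le (by omega) j).not_gt e, if_pos rfl, List.length_cons, ih]
        omega
      · rw [min_eq_right (not_lt.1 e), min_eq_left (by omega), if_pos k2, if_neg one_ne_zero, ih]
        omega
  have := h1 x
  rw [k]
  omega

end Pool.Agent.MP_1a6d78_lc.GM
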