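import Pool.Agent.MP_1a6d78_lc.GM.BoxQ
import Pool.Agent.MP_1a6d78_lc.GM.GnC
import Pool.Agent.MP_1a6d78_lc.GM.Grow
import Pool.Agent.MP_1a6d78_lc.GM.Defs
import Pool.Agent.MP_1a6d78_lc.GN.Spec

/-! PROJECT GM: the machine finds the genus; the theorem. -/

namespace Pool.Agent.MP_1a6d78_lc.GM

open Classical ED PR SC GN PL

/-- CORE: the main program when a bound `k` for the genus is given. -/
def CoreS : Prop :=
  ∀ (M : List Bool → Mp) (k : List Bool → ℕ), (∀ κ, Mp.C κ M ∧ Cn κ fun x _ => k x) →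
    (∀ x, (M x).n ≤ x.length ∧ k x ≤ x.length) →
    ∃ (E : ℕ) (f : List Bool → ℕ), Pg (fun x => (E + 1) * (k x + 1) * lg x ^ 2) f ∧ (∀ x, f x ≤ 1) ∧
      ∀ x, Pm (M x).n (M x).ρ → Iv (M x).n (M x).β → (M x).s < (M x).n → (M x).t < (M x).n →
        gen (M x).n (M x).ρ (M x).β ≤ 2 * k x →
        (f x = 1 ↔ Wk (M x).n (M x).ρ (M x).β (M x).dir (M x).s (M x).t)

def MainS : Prop :=
  ∃ (M : ED.TM) (c : ℕ), ∀ x : List Bool, ∃ r : Bool,
    M.out (M.run x ((x.length + 2) ^ c)).q = some r ∧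
    ∀ (n : ℕ) (σ α : Equiv.Perm (Fin n)) (dir : Fin n → Bool) (s t : Fin n),
      α * α = 1 → x = PR.code σ α dir s t → (r = true ↔ PR.Reach σ α dir s t) ∧
        ∀ (τ : ℕ) (i : Fin M.k),
          (M.run x τ).head i ≤ c * (genus σ α + 1) * (Nat.log 2 x.length + 1) ^ 3

namespace Fi

/-- The map after the first number of the input. -/
def in1 (y : List Bool) : Mp :=
  ⟨num y 1, fun d => num y (3 + d + 1), fun d => num y (3 + num y 1 + d + 1),
    fun d => num y (3 + num y 1 + num y 1 + d + 1) = 1, num y 2, num y 3⟩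

def vy (a : ℕ) (x : List Bool) : List Bool := List.replicate a true ++ false :: x

theorem in1_vy (a : ℕ) (x : List Bool) : in1 (vy a x) = inp x := by
  have e : ∀ i, num (vy a x) (i + 1) = num x i := Code.num_rep_succ a x
  simp only [in1, inp, e]

theorem k_vy (a : ℕ) (x : List Bool) : num (vy a x) 0 = a := Code.num_rep_zero a x

theorem len_vy (a : ℕ) (x : List Bool) : (vy a x).length = a + 1 + x.length := by
  simp [vy]; omega

theorem bit_vy (a : ℕ) (x : List Bool) (p : ℕ) :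
    bit (vy a x) p = if p < a then 1 else if p = a then 0 else bit x (p - (a + 1)) := by
  unfold bit vy
  rcases lt_trichotomy p a with h | rfl | h
  · rw [List.getElem?_append_left (by simpa using h), List.getElem?_replicate]
    simp [h]
  · simp
  · obtain ⟨u, rfl⟩ : ∃ u, p = a + 1 + u := ⟨p - (a + 1), by omega⟩
    rw [List.getElem?_append_right (by simp; omega), if_neg (show ¬a + 1 + u < a by omega),
      if_neg (show ¬a + 1 + u = a by omega), List.length_replicate,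
      show a + 1 + u - a = u + 1 by omega, List.getElem?_cons_succ, Nat.add_sub_cancel_left]

theorem in1C (κ : List Bool → ℕ) : Mp.C κ in1 ∧ Cn κ fun x _ => num x 0 := by
  have num : ∀ {a : List Bool → Env → ℕ}, Cn κ a → Cn κ fun x ρ => num x (a x ρ) :=
    AlgD.numC (kitOne _) (kitTwo _)
  have hn : Cn κ fun x _ => (in1 x).n := num (K.c 1)
  exact ⟨⟨hn, num (K.add (K.add (K.c 3) (K.v 0)) (K.c 1)),
    num (K.add (K.add (K.add (K.c 3) hn) (K.v 0)) (K.c 1)),
    K.eq (num (K.add (K.add (K.add (K.add (K.c 3) hn) hn) (K.v 0)) (K.c 1))) (K.c 1), num (K.c 2),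
    num (K.c 3)⟩, num (K.c 0)⟩

/-- A program runs on the input with a number in front. -/
theorem run {κ1 f : List Bool → ℕ} (hf : Pg κ1 f) (h1 : ∀ y, 1 ≤ κ1 y) (h2 : ∀ y, f y ≤ 1)
    {κ q β : List Bool → ℕ} {a : VN} (ha : Nq κ q β a)
    (hb : ∀ x g ρ, a x g ρ + 1 + x.length ≤ q x ∧ κ1 (vy (a x g ρ) x) ≤ κ x ∧ κ x ≤ q x) :
    Nq κ q β fun x g ρ => f (vy (a x g ρ) x) :=
  vin κ1 f hf h1 h2 κ q β (fun x g ρ => vy (a x g ρ) x)
    (fun x g ρ => ⟨(len_vy _ _).trans_le (hb x g ρ).1, (hb x g ρ).2.1,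
      (hb x g ρ).2.1.trans (hb x g ρ).2.2⟩)
    (Q.cg (Q.add (Q.add ha (Q.c 1)) (Q.lift (kitOne κ).len)) fun _ _ _ => (len_vy _ _).symm)
    (Q.cg (Q.ite (Q.lt (Q.v 0) (Q.w ha)) (Q.c 1) (Q.ite (Q.eq (Q.v 0) (Q.w ha)) (Q.c 0)
      (Q.op1 bit ((kitOne κ).bit (K.v 0)) (Q.sub (Q.v 0) (Q.add (Q.w ha) (Q.c 1))))))
      fun _ _ _ => (bit_vy _ _ _).symm)

theorem cn_sound {N g : ℕ} {ρ γ : ℕ → ℕ} (p : Pm N ρ) (i : Iv N γ) {a b : ℕ} (ha : a < N)
    (h : cn N g ρ γ a b) : Conn N ρ γ a b := by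
  have u : ∀ l d, dl g (t0 N ρ γ) l d = d ∨ dl g (t0 N ρ γ) l d = γ d := fun l d => by
    unfold dl t0
    split_ifs <;> simp
  refine Sc.ind (fun d hd => p.1 _ ?_) ha (Conn.refl _ _ _ _) (fun d hd k => k.trans ?_) h
  · rcases u _ d with e | e <;> rw [e]
    exacts [hd, (i d hd).1]
  · rcases u _ d with e | e <;> rw [e]
    exacts [Conn.rho ρ γ hd, (Conn.gam ρ γ hd).trans (Conn.rho ρ γ (i d hd).1)]

/-- The test of the genus. -/
def Ts (M : Mp) (k : ℕ) : Prop :=
  2 * ncl M.n (fun _ => True) (cn M.n k M.ρ M.β) + M.n ≤ ncl M.n (fun _ => True) (Sc M.n M.β) +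
    ncl M.n (fun _ => True) (Sc M.n fun d => M.ρ (M.β d)) + ncl M.n (fun _ => True) (Sc M.n M.ρ) +
      2 * k

theorem ts_sound {M : Mp} {k : ℕ} (p : Pm M.n M.ρ) (i : Iv M.n M.β) (h : Ts M k) :
    gen M.n M.ρ M.β ≤ 2 * k := by
  have : ncl M.n (fun _ => True) (Conn M.n M.ρ M.β) ≤ ncl M.n (fun _ => True) (cn M.n k M.ρ M.β) :=
    cnt_mono fun a ha u => ⟨trivial, fun e he v => u.2 e he (cn_sound p i ha v)⟩
  unfold Ts at h
  unfold gen
  omega

theorem ts_full (hC : CnS) {M : Mp} {k : ℕ} (p : Pm M.n M.ρ) (i : Iv M.n M.β)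
    (h : gen M.n M.ρ M.β ≤ 2 * k) : Ts M k := by
  have : ncl M.n (fun _ => True) (cn M.n k M.ρ M.β) = ncl M.n (fun _ => True) (Conn M.n M.ρ M.β) :=
    cnt_congr fun a ha => and_congr_right fun _ => forall₂_congr fun e _ => by
      rw [hC _ k _ _ p i h a ha e]
  unfold gen at h
  unfold Ts
  omega

theorem tsP : Pg (fun y => num y 0 + 1) fun y => if Ts (in1 y) (num y 0) then 1 else 0 := by
  obtain ⟨⟨c1, c2, c3, -⟩, c4⟩ := in1C fun y => num y 0 + 1
  have h : NB (fun y => num y 0 + 1) (fun y => y.length + 2) (fun y => y.length + 2)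
      fun y _ => (in1 y).n := ⟨Q.lift c1, fun y _ => by have := PL.num_le y 1; simp [in1]; omega⟩
  have t : TB (fun y => num y 0 + 1) (fun y => y.length + 2) fun y => num y 0 :=
    ⟨c4, fun _ => Nat.le_succ _, fun y => by have := PL.num_le y 0; omega⟩
  have tr : P1q (fun y => num y 0 + 1) (fun y => y.length + 2) (fun y => y.length + 2)
      fun _ _ _ _ => True := Q.cgP (Q.le (Q.c 0) (Q.c 0)) fun _ _ _ => by simp
  exact subO _ (fun y => y.length + 2) (fun y => y.length + 2) (fun _ _ => 0)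
    (fun y _ => if Ts (in1 y) (num y 0) then 1 else 0) 1
    (Q.le (Q.add (db (h.cnt (P := fun y _ _ d => True ∧ ∀ e < (in1 y).n,
        cn (in1 y).n (num y 0) (in1 y).ρ (in1 y).β d e → d ≤ e) (Q.and tr (h.all
          (P := fun y _ ρ e => cn (in1 y).n (num y 0) (in1 y).ρ (in1 y).β (hd (ρ 0)) e → hd (ρ 0) ≤ e)
          (Q.imp (cnC h t (Q.lift c2) (Q.lift c3) (Q.v 1) (Q.v 0)) (Q.le (Q.v 1) (Q.v 0))))))) h.c)
      (Q.add (Q.add (Q.add (h.nsc tr (Q.lift c3)) (h.nsc tr (cmpC (Q.lift c2) (Q.lift c3))))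
        (h.nsc tr (Q.lift c2))) (db t.nb.c)))
    (K.c 0) (fun _ _ => Nat.zero_le _) fun _ => by simp

/-- A bound for the genus. -/
noncomputable def G (x : List Bool) : ℕ :=
  if Pm (inp x).n (inp x).ρ ∧ Iv (inp x).n (inp x).β then
    min ((gen (inp x).n (inp x).ρ (inp x).β).toNat / 2 + 1) (2 * x.length) else 2 * x.length

theorem G_le (x : List Bool) : G x ≤ 2 * x.length := by
  unfold G
  split_ifs
  exacts [min_le_right _ _, le_rfl]

def T (x : List Bool) (l : ℕ) : Prop := Ts (inp x) (l - 1) ∨ 2 * x.length ≤ l - 1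

theorem T_of (hC : CnS) {x : List Bool} {l : ℕ} (h : G x + 1 ≤ l) : T x l := by
  unfold G at h
  split_ifs at h with c
  · rcases le_or_gt (2 * x.length) (l - 1) with u | u
    · exact Or.inr u
    · exact Or.inl (ts_full hC c.1 c.2 (by omega))
  · exact Or.inr (by omega)

theorem T_sound {x : List Bool} {l : ℕ} (p : Pm (inp x).n (inp x).ρ) (i : Iv (inp x).n (inp x).β)
    (h : T x l) : gen (inp x).n (inp x).ρ (inp x).β ≤ 2 * (l - 1 : ℕ) := by
  rcases h with h | h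
  · exact ts_sound p i h
  · have a : (inp x).n ≤ x.length := PL.num_le x 0
    have b : ncl (inp x).n (fun _ => True) (Conn (inp x).n (inp x).ρ (inp x).β) ≤ (inp x).n :=
      cnt_le _ _
    unfold gen
    omega

theorem lg_vy {a : ℕ} {x : List Bool} (h : a ≤ 2 * x.length) : lg (vy a x) ≤ 3 * lg x := by
  have u : x.length < 2 ^ lg x := Nat.lt_pow_succ_log_self (by omega) _
  have v : (vy a x).length < 2 ^ (lg x + 2) := by rw [len_vy, pow_add]; omega
  have w : 1 ≤ lg x := Nat.succ_pos _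
  have := Nat.log_lt_of_lt_pow' (by omega) v
  unfold lg at *
  omega

theorem space {E G n c : ℕ} (b l : ℕ) (hl : l = Nat.log 2 n + 1) :
    (E * (G + 1) * l ^ 2 + 1) * (c * Nat.log 2 ((n + 2) ^ b + 2) + c) ≤
      (E + 1) * (c * (2 * b + 3)) * (G + 1) * l ^ 3 := by
  have l1 : 1 ≤ l := by omega
  have u : n + 2 ≤ 2 ^ (2 * l) := by
    have : n < 2 ^ l := hl ▸ Nat.lt_pow_succ_log_self (by omega) n
    have : 2 ^ 1 ≤ 2 ^ l := Nat.pow_le_pow_right (by omega) l1
    rw [pow_mul']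
    nlinarith
  have v : (n + 2) ^ b + 2 ≤ 2 ^ (2 * l * b + 2) := by
    have := Nat.pow_le_pow_left u b
    have := Nat.one_le_two_pow (n := 2 * l * b)
    rw [← pow_mul] at *
    rw [pow_add]
    omega
  have w := (Nat.log_mono_right (b := 2) v).trans (Nat.log_pow (by omega) _).le
  have a : 1 ≤ (G + 1) * l ^ 2 := Nat.mul_pos (by omega) (Nat.pow_pos l1)
  calc _ ≤ ((E + 1) * ((G + 1) * l ^ 2)) * (c * (2 * b + 3) * l) :=
        Nat.mul_le_mul (by nlinarith) (by
          rw [mul_assoc, ← mul_add_one]; exact Nat.mul_le_mul_left _ (by nlinarith))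
    _ = _ := by ring

end Fi

open Fi

theorem mainS (hC : CnS) (h : CoreS) : MainS := by
  obtain ⟨E, f, f1, f2, f3⟩ := h in1 (fun y => num y 0) in1C
    fun y => ⟨PL.num_le y 1, PL.num_le y 0⟩
  obtain ⟨κ, eκ⟩ : ∃ κ : List Bool → ℕ, κ = fun x => 9 * (E + 1) * (G x + 1) * lg x ^ 2 := ⟨_, rfl⟩
  obtain ⟨b, eb⟩ : ∃ b, b = 9 * (E + 1) + 5 := ⟨_, rfl⟩
  obtain ⟨q, eq⟩ : ∃ q : List Bool → ℕ, q = fun x => (x.length + 2) ^ b := ⟨_, rfl⟩
  have l1 : ∀ x, 1 ≤ lg x := fun _ => Nat.succ_pos _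
  have k1 : ∀ x, G x + 1 ≤ κ x := fun x => by
    have : 1 * (G x + 1) * 1 ≤ 9 * (E + 1) * (G x + 1) * lg x ^ 2 :=
      Nat.mul_le_mul (Nat.mul_le_mul_right _ (by omega)) (Nat.pow_pos (l1 x))
    rw [eκ]
    simpa using this
  have k2 : ∀ x, κ x + 1 + x.length ≤ q x := fun x => by
    have a : κ x ≤ (x.length + 2) ^ (9 * (E + 1)) * (x.length + 2) ^ 2 * (x.length + 2) ^ 2 := by
      rw [eκ]
      exact Nat.mul_le_mul (Nat.mul_le_mul (Nat.lt_pow_self (by omega)).le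
        (by have := G_le x; nlinarith)) (Nat.pow_le_pow_left ((lg_le x).trans (Nat.le_succ _)) 2)
    rw [← pow_add, ← pow_add] at a
    have c : x.length + 2 ≤ (x.length + 2) ^ (9 * (E + 1) + 2 + 2) := Nat.le_self_pow (by omega) _
    rw [eq, show b = 9 * (E + 1) + 2 + 2 + 1 by omega]
    dsimp only
    rw [pow_succ]
    nlinarith
  have cq : Cn κ fun x _ => q x :=
    K.cg (K.pow b (K.add (kitOne κ).len (K.c 2))) fun x _ => by rw [eq]
  have cL : Nq κ q q fun x _ _ => lst (κ x + 1) (T x) :=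
    grow κ q q T (fun x => by have := k2 x; omega) (fun x => T_of hC (k1 x)) cq fun a ha hb =>
      Q.cgP (Q.or (Q.eq (run tsP (fun _ => by omega) (fun _ => by split_ifs <;> omega)
        (Q.sub ha (Q.c 1)) fun x g ρ => by
          have := k2 x
          have := k1 x
          have := hb x g ρ
          rw [k_vy]
          omega) (Q.c 1))
        (Q.le (db (Q.lift (kitOne κ).len)) (Q.sub ha (Q.c 1)))) fun x g ρ => by
          rw [in1_vy, k_vy, T]
          exact or_congr_left (by split_ifs with c <;> simp [c])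
  have lL : ∀ x, lst (κ x + 1) (T x) ≤ G x + 1 := fun x =>
    lst_le (Nat.lt_succ_of_le (k1 x)) (T_of hC le_rfl)
  obtain ⟨M, c, hM⟩ := machW κ _ (subO κ q q (fun _ _ => 0)
    (fun x _ => f (vy (lst (κ x + 1) (T x) - 1) x)) b
    (run f1 (fun y => Nat.mul_pos (Nat.mul_pos (by omega) (by omega)) (Nat.pow_pos (l1 y))) f2
      (Q.sub cL (Q.c 1)) fun x _ _ => by
        have := k2 x
        have := k1 x
        have := lL x
        have := G_le x
        refine ⟨by omega, ?_, by omega⟩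
        rw [k_vy]
        refine (Nat.mul_le_mul (Nat.mul_le_mul_left _ (show _ ≤ G x + 1 by omega))
          (Nat.pow_le_pow_left (lg_vy (by omega)) 2)).trans (le_of_eq ?_)
        rw [eκ]
        ring) (K.c 0) (fun _ _ => Nat.zero_le _) fun x => by rw [eq]; exact ⟨le_rfl, le_rfl⟩)
  refine ⟨M, (b + 2) * c + 2 * ((9 * (E + 1) + 1) * (c * (2 * b + 3))), fun x => ?_⟩
  obtain ⟨h1, h2⟩ := hM x (q x) (by have := k1 x; omega) (by have := k2 x; omega)
    (by have := k2 x; omega)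
  refine ⟨_, (congrArg (fun u => M.out u.q) (Fn.halt M x h1 ?_)).trans h1,
    fun n σ α dir s t hα hx => ?_⟩
  · have : q x + 2 ≤ (x.length + 2) ^ (b + 2) := by
      have := Nat.one_le_pow b (x.length + 2) (by omega)
      have : 2 ^ 2 ≤ (x.length + 2) ^ 2 := Nat.pow_le_pow_left (by omega) 2
      rw [eq, pow_add]
      dsimp only
      nlinarith
    exact (Nat.pow_le_pow_left this c).trans (by
      rw [← pow_mul]; exact Nat.pow_le_pow_right (by omega) (Nat.le_add_right _ _))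
  have R := cod_rep σ α dir s t
  rw [← hx] at R
  have p : Pm (inp x).n (inp x).ρ := R.hn ▸ Eul.pm R.ρ
  have i : Iv (inp x).n (inp x).β := R.hn ▸ fun d hd => ⟨(Eul.pm R.β).1 d hd, by
    rw [show (inp x).β d = α ⟨d, hd⟩ from R.β ⟨d, hd⟩, R.β, ← Equiv.Perm.mul_apply, hα]; rfl⟩
  constructor
  · have u := f3 (vy (lst (κ x + 1) (T x) - 1) x)
    rw [in1_vy, k_vy] at u
    have v := u p i (by rw [R.s, R.hn]; exact s.2) (by rw [R.t, R.hn]; exact t.2)
      (T_sound p i (lst_spec ⟨_, Nat.lt_succ_self _, T_of hC (k1 x)⟩).2)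
    rw [R.hn, R.s, R.t, ← Bq.reach_wk σ α R.ρ R.β,
      show (fun a : Fin n => decide ((inp x).dir a)) = dir from funext fun a => by
        rw [Bool.eq_iff_iff, decide_eq_true_iff, R.dir]] at v
    have := f2 (vy (lst (κ x + 1) (T x) - 1) x)
    rw [← v, bne_iff_ne]
    omega
  · intro τ j
    have g : G x + 1 ≤ 2 * (genus σ α + 1) := by
      rw [G, if_pos ⟨p, i⟩, R.hn, gen, Eul.ncl_conn R.ρ R.β, Eul.ncl_sc R.β, Eul.ncl_sc R.ρ,
        Eul.ncl_sc (π := σ * α) fun a => by rw [R.β, R.ρ]; rfl, genus]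
      omega
    refine (h2 τ j).trans ?_
    rw [eκ, eq]
    refine (space b _ rfl).trans (Nat.mul_le_mul_right _ ?_)
    refine (Nat.mul_le_mul_left _ g).trans ?_
    rw [← mul_assoc]
    exact Nat.mul_le_mul_right _ (by omega)

end Pool.Agent.MP_1a6d78_lc.GM
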