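import Pool.Agent.MP_1a6d78_lc.GM.GnC

/-! PROJECT GM: histories with two parameters. -/

namespace Pool.Agent.MP_1a6d78_lc.GM

open Classical ED PR SC GN PL

/-- The data of a family of histories are computable. -/
structure HP (κ q β : List Bool → ℕ) (N : List Bool → Orc → ℕ) (H : List Bool → Orc → ℕ → ℕ → Hs) :
    Prop where
  n : NB κ q β fun x g => 2 * N x g
  hn : ∀ x g u v, (H x g u v).n = N x g
  σ : ∀ {u v k d : VN}, Nq κ q β u → Nq κ q β v → Nq κ q β k → Nq κ q β d →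
    Nq κ q β fun x g ρ => (H x g (u x g ρ) (v x g ρ)).σ (k x g ρ) (d x g ρ)
  A : ∀ {u v k c : VN}, Nq κ q β u → Nq κ q β v → Nq κ q β k → Nq κ q β c →
    Pq κ q β fun x g ρ => (H x g (u x g ρ) (v x g ρ)).A (k x g ρ) (c x g ρ)
  T : ∀ {u v k c : VN}, Nq κ q β u → Nq κ q β v → Nq κ q β k → Nq κ q β c →
    Pq κ q β fun x g ρ => (H x g (u x g ρ) (v x g ρ)).T (k x g ρ) (c x g ρ)
  C : ∀ {u v : VN} {f γ : VF} {a b : VN}, Fq κ q β f → Fq κ q β γ → Nq κ q β a → Nq κ q β b →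
    Pq κ q β fun x g ρ => (H x g (u x g ρ) (v x g ρ)).C (f x g ρ) (γ x g ρ) (a x g ρ) (b x g ρ)

namespace HP

variable {κ q β : List Bool → ℕ} {N : List Bool → Orc → ℕ} {H : List Bool → Orc → ℕ → ℕ → Hs}
  (h : HP κ q β N H) {u v j c a b : VN} {P : VP}
include h

theorem hc {u v : List Bool → ℕ} (hu : Nq κ q β fun x _ _ => u x) (hv : Nq κ q β fun x _ _ => v x) :
    HC κ q β fun x g => H x g (u x) (v x) where
  n := by simp only [h.hn]; exact h.n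
  σ := h.σ hu hv
  A := h.A hu hv
  T := h.T hu hv
  C := h.C (u := fun x _ _ => u x) (v := fun x _ _ => v x)

variable (hu : Nq κ q β u) (hv : Nq κ q β v)
include hu hv

theorem σF (hj : Nq κ q β j) : Fq κ q β fun x g ρ => (H x g (u x g ρ) (v x g ρ)).σ (j x g ρ) :=
  h.σ (Q.w hu) (Q.w hv) (Q.w hj) (Q.v 0)

theorem AP (hj : Nq κ q β j) : P1q κ q β fun x g ρ => (H x g (u x g ρ) (v x g ρ)).A (j x g ρ) :=
  h.A (Q.w hu) (Q.w hv) (Q.w hj) (Q.v 0)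

theorem pos (hj : Nq κ q β j) (hc : Nq κ q β c) :
    Pq κ q β fun x g ρ => (H x g (u x g ρ) (v x g ρ)).pos (j x g ρ) (c x g ρ) :=
  Q.cgP (psC (K := fun x g ρ => (H x g (u x g ρ) (v x g ρ)).C ((H x g (u x g ρ) (v x g ρ)).σ
      (j x g ρ)) (ed ((H x g (u x g ρ) (v x g ρ)).A (j x g ρ))) (2 * c x g ρ)) h.n
    (h.σF hu hv hj) (edC (h.AP hu hv hj))
    (h.C (u := fun x g ρ => u x g (tl ρ)) (v := fun x g ρ => v x g (tl ρ)) (Q.wF (h.σF hu hv hj))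
      (Q.wF (edC (h.AP hu hv hj))) (Q.w (db hc)) (Q.v 0))) fun _ _ _ => by rw [Hs.pos, h.hn]

theorem Co (hj : RN κ q β j) (hc : Nq κ q β c) :
    Pq κ q β fun x g ρ => (H x g (u x g ρ) (v x g ρ)).Co (j x g ρ) (c x g ρ) :=
  Q.and (h.A hu hv hj.c hc) (Q.all (P := fun x g ρ i => (H x g (u x g ρ) (v x g ρ)).pos i (c x g ρ))
    (Q.add hj.c (Q.c 1)) hj.b (h.pos (Q.w hu) (Q.w hv) (Q.v 0) (Q.w hc)))

theorem D (hj : RN κ q β j) (hc : Nq κ q β c) :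
    Pq κ q β fun x g ρ => (H x g (u x g ρ) (v x g ρ)).D (j x g ρ) (c x g ρ) :=
  Q.cgP (Q.ex (P := fun x g ρ i => (H x g (u x g ρ) (v x g ρ)).Co (min i (j x g ρ)) (c x g ρ) ∧
      ¬(H x g (u x g ρ) (v x g ρ)).A (i + 1) (c x g ρ) ∧ ¬(H x g (u x g ρ) (v x g ρ)).T i (c x g ρ))
    hj.c hj.le (Q.and (h.Co (Q.w hu) (Q.w hv) hj.v (Q.w hc))
      (Q.and (Q.not (h.A (Q.w hu) (Q.w hv) (Q.add (Q.v 0) (Q.c 1)) (Q.w hc)))
      (Q.not (h.T (Q.w hu) (Q.w hv) (Q.v 0) (Q.w hc)))))) fun _ _ _ =>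
    exists_congr fun i => and_congr_right fun hi => by rw [min_eq_left hi.le]

theorem Y (hj : RN κ q β j) (hc : Nq κ q β c) :
    Pq κ q β fun x g ρ => (H x g (u x g ρ) (v x g ρ)).Y (j x g ρ) (c x g ρ) :=
  Q.cgP (Q.ex (P := fun x g ρ i => (H x g (u x g ρ) (v x g ρ)).Co (min i (j x g ρ)) (c x g ρ) ∧
      (H x g (u x g ρ) (v x g ρ)).T i (c x g ρ)) hj.c hj.le
    (Q.and (h.Co (Q.w hu) (Q.w hv) hj.v (Q.w hc)) (h.T (Q.w hu) (Q.w hv) (Q.v 0) (Q.w hc))))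
    fun _ _ _ => exists_congr fun i => and_congr_right fun hi => by rw [min_eq_left hi.le]

theorem S (hj : RN κ q β j) (hc : Nq κ q β c) :
    Pq κ q β fun x g ρ => (H x g (u x g ρ) (v x g ρ)).S (j x g ρ) (c x g ρ) :=
  Q.and (Q.and (h.A hu hv (Q.c 0) hc) (Q.not (h.D hu hv hj hc)))
    (Q.or (Q.not (h.Co hu hv hj hc)) (h.Y hu hv hj hc))

theorem Yp (hj : RN κ q β j) (hP : P1q κ q β P) (hb : Nq κ q β b) (ha : Nq κ q β a) :
    Pq κ q β fun x g ρ => (H x g (u x g ρ) (v x g ρ)).Yp (j x g ρ) (P x g ρ) (b x g ρ) (a x g ρ) :=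
  Q.cgP (h.n.half.ex (P := fun x g ρ c => P x g ρ c ∧ (H x g (u x g ρ) (v x g ρ)).C
      ((H x g (u x g ρ) (v x g ρ)).σ 0) (ed ((H x g (u x g ρ) (v x g ρ)).S (j x g ρ)))
      (2 * c + b x g ρ) (a x g ρ))
    (Q.and hP (h.C (u := fun x g ρ => u x g (tl ρ)) (v := fun x g ρ => v x g (tl ρ))
      (h.σF (Q.w hu) (Q.w hv) (Q.c 0))
      (edC (P := fun x g ρ => (H x g (u x g (tl ρ)) (v x g (tl ρ))).S (j x g (tl ρ)))
        (h.S (Q.w (Q.w hu)) (Q.w (Q.w hv)) hj.w.w (Q.v 0))) (Q.add (db (Q.v 0)) (Q.w hb)) (Q.w ha))))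
    fun _ _ _ => by rw [Hs.Yp, h.hn]

theorem Free (hj : RN κ q β j) (hP : P1q κ q β P) (hb : Nq κ q β b) (ha : Nq κ q β a) :
    Pq κ q β fun x g ρ => (H x g (u x g ρ) (v x g ρ)).Free (j x g ρ) (P x g ρ) (b x g ρ) (a x g ρ) :=
  Q.cgP (Q.and (Q.not (h.Yp hu hv hj hP hb ha)) (h.n.half.all (P := fun x g ρ c =>
      (H x g (u x g ρ) (v x g ρ)).Co (j x g ρ) c → ¬(H x g (u x g ρ) (v x g ρ)).Y (j x g ρ) c →
        (H x g (u x g ρ) (v x g ρ)).Yp (j x g ρ) (P x g ρ) (b x g ρ) (2 * c + (1 - b x g ρ)) →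
          P x g ρ c)
    (Q.imp (h.Co (Q.w hu) (Q.w hv) hj.w (Q.v 0)) (Q.imp (Q.not (h.Y (Q.w hu) (Q.w hv) hj.w (Q.v 0)))
      (Q.imp (h.Yp (Q.w hu) (Q.w hv) hj.w (Q.wP1 hP) (Q.w hb)
        (Q.add (db (Q.v 0)) (Q.sub (Q.c 1) (Q.w hb)))) hP))))) fun _ _ _ => by rw [Hs.Free, h.hn]

end HP

end Pool.Agent.MP_1a6d78_lc.GM
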