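import Pool.Agent.MP_1a6d78_lc.GM.Spec

/-! PROJECT GM: the machine finds the size of its tables. -/

namespace Pool.Agent.MP_1a6d78_lc.GM

open Function ED SC

/-- GROW: the least size that passes a test is found by growing a list. -/
def GrowS : Prop :=
  ∀ (κ q β : List Bool → ℕ) (T : List Bool → ℕ → Prop), (∀ x, κ x ≤ q x) → (∀ x, T x (κ x)) →
    (Cn κ fun x _ => q x) →
    (∀ a : List Bool → Orc → Env → ℕ, Nq κ q β a → (∀ x g ρ, a x g ρ ≤ κ x) →
      Pq κ q β fun x g ρ => T x (a x g ρ)) →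
    Nq κ q β fun x _ _ => PR.lst (κ x + 1) (T x)

end Pool.Agent.MP_1a6d78_lc.GM
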