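import Pool.Agent.MP_1a6d78_lc.GM.BoxQ
import Pool.Agent.MP_1a6d78_lc.GM.GnC
import Pool.Agent.MP_1a6d78_lc.GN.Spec

/-! PROJECT GM: the last stage, pointers with the black box. -/

namespace Pool.Agent.MP_1a6d78_lc.GM

open Classical ED PR SC GN PL

/-- TOP -/
def TopS : Prop :=
  ∃ ans : Hs → ℕ → ℕ → ℕ → ℕ → Prop,
    (∀ (H : Hs) (L s t J : ℕ), H.Ok L → H.Fre L s t → s < 2 * H.n → t < 2 * H.n →
      cnt (2 * H.n) (H.It L s t) ≤ J → (ans H L s t J ↔ Rc H.n (H.σ 0) (H.A 0) s t)) ∧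
    ∀ e, ∃ A, ∀ (κ q β k n L s t : List Bool → ℕ) (H : List Bool → Orc → Hs),
      (∀ x, 2 * n x ≤ (x.length + 2) ^ e ∧ A * lg x ^ 2 ≤ κ x ∧ (x.length + 2) ^ A ≤ q x ∧
        k x * (2 * n x) + 1 ≤ q x) → (∀ x g, (H x g).n = n x) → HC κ q β H → TB κ q k →
      RN κ q β (fun x _ _ => L x) → Nq κ q β (fun x _ _ => s x) → Nq κ q β (fun x _ _ => t x) →
      Pq κ q β fun x g _ => ans (H x g) (L x) (s x) (t x) (k x)

theorem wk_rc {n : ℕ} {σ : ℕ → ℕ} {A : ℕ → Prop} {a b : ℕ} :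
    Wk (2 * n) σ (ed A) (fun d => d % 2 = 0) a b ↔ Rc n σ A a b := by
  constructor <;> intro h
  · induction h with
    | refl => exact .refl
    | @tail c d _ k ih =>
      rcases k with ⟨k, rfl | ⟨e, rfl⟩⟩
      · exact ih.tail ⟨k, Or.inl rfl⟩
      · by_cases u : A (c / 2)
        · exact ih.tail ⟨k, Or.inr ⟨e, u, by rw [ed_pos u, fl, if_pos e]⟩⟩
        · rwa [ed_neg u]
  · induction h with
    | refl => exact .refl
    | @tail c d _ k ih =>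
      rcases k with ⟨k, rfl | ⟨e, u, rfl⟩⟩
      · exact ih.tail ⟨k, Or.inl rfl⟩
      · exact ih.tail ⟨k, Or.inr ⟨e, by rw [ed_pos u, fl, if_pos e]⟩⟩

theorem topS (hM : GN.MainS) (hP : PlS) : TopS := by
  obtain ⟨bx, b1, b2⟩ := boxQ
  refine ⟨fun H L s t J => (H.pt L s t J (bx (2 * H.n) (H.σ 0) (ed (H.B L s t))
    fun d => d % 2 = 0)).src (H.pt L s t J (bx (2 * H.n) (H.σ 0) (ed (H.B L s t))
      fun d => d % 2 = 0)).fin t, fun H L s t J h1 h2 h3 h4 h5 => hM H L s t J _ h1 h2 h3 h4 h5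
        fun a ha b hb => (b1 _ _ _ _ _ _ h1.lv.pm (ed_iv _ _) (hP H L s t h1).1 ha hb).trans wk_rc,
    fun e => ?_⟩
  obtain ⟨A, hA⟩ := b2 e
  refine ⟨A, fun κ q β k n L s t H hb hn h tb hL hs ht => ?_⟩
  have P := h.pt (k := k) (bb := fun x g => bx (2 * (H x g).n) ((H x g).σ 0)
    (ed ((H x g).B (L x) (s x) (t x))) fun d => d % 2 = 0) hL hs ht fun ha hb' =>
      Q.cgP (hA κ q β (fun x => 2 * n x) (fun x => ⟨(hb x).1, (hb x).2.1, (hb x).2.2.1⟩)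
        (Q.cg h.n.c fun x g _ => by rw [hn]) _ _ (fun _ _ _ d => d % 2 = 0) _ _ (h.σF (Q.c 0))
        (edC (P := fun x g _ => (H x g).B (L x) (s x) (t x)) (h.B hL hs ht (Q.v 0)))
        (Q.eq (m2 (Q.v 0)) (Q.c 0)) ha hb') fun x g _ => by rw [hn]
  exact P.src tb (P.fin tb fun x g => (hn x g ▸ (hb x).2.2.2 :
    k x * (2 * (H x g).n) + 1 ≤ q x)) ht

end Pool.Agent.MP_1a6d78_lc.GM
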